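import Pool.Agent.FBL.Defs

namespace Pool.Agent.FBL

/-- All points of `S` are vertices of `conv V` on one proper face: `S` lies in `V` and a linear
functional which is at most `1` on `V` equals `1` on `S`. (For `V` as in `IsSmoothFano` the
faces of `conv V` other than `conv V` are simplices, so this says that `conv S` is such a face.) -/
def IsFace {n : ℕ} (V S : Finset (Fin n → ℤ)) : Prop :=
  S ⊆ V ∧ ∃ φ : (Fin n → ℝ) →ₗ[ℝ] ℝ, (∀ v ∈ V, φ (toR v) ≤ 1) ∧ ∀ v ∈ S, φ (toR v) = 1

/-- `K` is a primitive collection of `V` (Batyrev): it is no face, but the sets `K` minus a point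
are faces; and the sum of its points is zero. -/
def IsZeroSumPrimitive {n : ℕ} (V K : Finset (Fin n → ℤ)) : Prop :=
  K ⊆ V ∧ ¬ IsFace V K ∧ (∀ v ∈ K, IsFace V (K.erase v)) ∧ ∑ v ∈ K, v = 0

/-- Some lattice automorphism of `V` maps `K` onto `L`. -/
def Carries {n : ℕ} (V K L : Finset (Fin n → ℤ)) : Prop :=
  ∃ g, IsAut V g ∧ K.image g = L

end Pool.Agent.FBL
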