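import Pool.Agent.FLT99.Final
import Pool.Agent.FLT99.ZDefs
import Pool.Agent.FBL.Bridge

namespace FLT99

open Finset

variable {n : ℕ} {V : Finset (Fin n → ℤ)}

theorem preFano_of (hV : Pool.Agent.FBL.IsSmoothFano V) : PreFano V :=
  ⟨hV.zero_mem, fun φ h1 h2 => hV.facet φ h1 h2⟩

theorem same_iff {v w : Fin n → ℤ} :
    SameOrbit V v w ↔ ∃ g, Pool.Agent.FBL.IsAut V g ∧ g v = w :=
  Pool.Agent.FBL.aut_iff.symm

theorem orbit_set (v : Fin n → ℤ) :
    {w | SameOrbit V v w} = Pool.Agent.FBL.orbitOf V v := by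
  ext w
  exact same_iff

theorem orbitCount_eq (V : Finset (Fin n → ℤ)) : orbitCount V = Pool.Agent.FBL.numOrbits V := by
  unfold orbitCount Pool.Agent.FBL.numOrbits
  congr 1
  ext O
  constructor
  · rintro ⟨v, hv, rfl⟩
    exact ⟨v, hv, orbit_set v⟩
  · rintro ⟨v, hv, rfl⟩
    exact ⟨v, hv, orbit_set v⟩

theorem inv_eq (V : Finset (Fin n → ℤ)) : invForms V = Pool.Agent.FBL.invariantsL V := by
  rw [invForms_eq]
  rfl

theorem fibreLike_of (h : Pool.Agent.FBL.numOrbits V = Pool.Agent.FBL.invRank V + 1) :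
    FibreLike V := by
  unfold FibreLike
  rw [orbitCount_eq, h, Pool.Agent.FBL.invRank_eq, inv_eq]
  rfl

theorem isFace_of_facet (B : Facet V) {S : Finset (Fin n → ℤ)} (hS : S ⊆ B.F) :
    Pool.Agent.FBL.IsFace V S := by
  have h1 : ∀ v, ext (toReal B.u) (Pool.Agent.FBL.toR v) = (B.u v : ℝ) := fun v =>
    ext_toR (toReal B.u) v
  refine ⟨hS.trans B.sub, ext (toReal B.u), ?_, ?_⟩
  · intro v hv
    rw [h1]
    have h := B.d_nonneg hv
    rw [Facet.d] at h
    have : B.u v ≤ 1 := by linarith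
    exact_mod_cast this
  · intro v hv
    rw [h1, B.u_mem (hS hv)]
    norm_num

theorem not_isFace_of_sum {S : Finset (Fin n → ℤ)} (hne : S.Nonempty) (hs : ∑ x ∈ S, x = 0) :
    ¬ Pool.Agent.FBL.IsFace V S := by
  rintro ⟨_, φ, _, hφ⟩
  have h1 : ∑ x ∈ S, φ (toR x) = 0 := by
    have h2 := congrArg (res φ) hs
    rw [map_sum, map_zero] at h2
    exact h2
  have h2 : ∀ x ∈ S, φ (toR x) = 1 := hφ
  rw [Finset.sum_congr rfl h2, Finset.sum_const, nsmul_eq_mul, mul_one] at h1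
  have h3 : S.card = 0 := by exact_mod_cast h1
  rw [Finset.card_eq_zero] at h3
  rw [h3] at hne
  exact Finset.not_nonempty_empty hne

/-- A face lies in a facet. -/
theorem facet_of_isFace (hV : Core V) {S : Finset (Fin n → ℤ)}
    (hS : Pool.Agent.FBL.IsFace V S) : ∃ B : Facet V, S ⊆ B.F := by
  obtain ⟨hSV, φ, hφ, hφS⟩ := hS
  obtain ⟨B, hB⟩ := exists_facet hV (res φ) hφ
  exact ⟨B, fun v hv => hB v (hSV hv) (hφS v hv)⟩

/-- Every facet is a facet of the other development. -/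
theorem Facet.isFct (A : Facet V) : Pool.Agent.FBL.IsFct V A.u := by
  have hmem : ∀ v, v ∈ V ∧ A.u v = 1 ↔ v ∈ A.F := by
    intro v
    constructor
    · rintro ⟨hv, h1⟩
      by_contra hcon
      have := A.d_pos hv hcon
      rw [Facet.d, h1] at this
      norm_num at this
    · intro hv
      exact ⟨A.sub hv, A.u_mem hv⟩
  have hset : {v | v ∈ V ∧ A.u v = 1} = (A.F : Set (Fin n → ℤ)) := by
    ext v
    exact hmem v
  refine ⟨?_, ?_, ?_⟩
  · intro v hv
    have h := A.d_nonneg hv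
    rw [Facet.d] at h
    linarith
  · rw [hset]
    rw [linearIndepOn_finset_iff]
    intro g hg f hf
    have h1 := congrArg (A.co f) hg
    rw [map_sum, map_zero, Finset.sum_eq_single f] at h1
    · rw [map_smul, id, A.co_self f hf] at h1
      simpa using h1
    · intro x hx hxf
      rw [map_smul, id, A.co_ne f hf x hx (Ne.symm hxf), smul_zero]
    · intro h
      exact absurd hf h
  · rw [hset, eq_top_iff]
    intro x _
    rw [← A.expand x]
    exact Submodule.sum_mem _ fun f hf =>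
      Submodule.smul_mem _ _ (Submodule.subset_span hf)

namespace Col

variable {k : ℤ} {A : (Fin n → ℤ) → Facet V}

theorem K_zsp (hV : Core V) (h : Col V k A) {v : Fin n → ℤ} (hv : v ∈ V) :
    Pool.Agent.FBL.IsZeroSumPrimitive V (K V A v) := by
  refine ⟨K_sub v, not_isFace_of_sum ⟨v, self_mem h hv⟩ (K_sum hV h hv), ?_, K_sum hV h hv⟩
  intro w hw
  have hwV := K_sub v hw
  apply isFace_of_facet (A w)
  intro x hx
  rw [Finset.mem_erase] at hx
  exact K_in hV h hwV (by rw [K_eq hV h hv hw]; exact hx.2) hx.1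

theorem K_block (hV : Core V) (h : Col V k A) {v : Fin n → ℤ} (hv : v ∈ V) :
    Pool.Agent.FBL.IsBlock V (K V A v) := by
  refine ⟨K_sub v, ⟨v, self_mem h hv⟩, K_sum hV h hv, ?_⟩
  intro w hw
  refine ⟨(A w).u, (A w).isFct, ?_⟩
  intro x hx hxw
  exact (A w).u_mem (K_in hV h (K_sub v hw) (by rw [K_eq hV h hv hw]; exact hx) hxw)

/-- Nonnegative relations have degree at least `k`. -/
theorem nonneg_deg (h : Col V k A) {r : (Fin n → ℤ) → ℤ} (hr : IsRel V r)
    (h0 : ∀ x ∈ V, 0 ≤ r x) {v : Fin n → ℤ} (hv : v ∈ V) (h1 : 1 ≤ r v) : k ≤ deg V r := by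
  rw [deg_eq (A v) hr]
  have h2 : r v * (A v).d v ≤ ∑ x ∈ V, r x * (A v).d x :=
    Finset.single_le_sum (f := fun x => r x * (A v).d x)
      (fun x hx => mul_nonneg (h0 x hx) ((A v).d_nonneg hx)) hv
  rw [h.eq v hv] at h2
  have h3 := h.kpos
  nlinarith

/-- Every zero-sum primitive collection is one of the sets `K`. -/
theorem zsp_eq (hV : Core V) (h : Col V k A) {C : Finset (Fin n → ℤ)}
    (hC : Pool.Agent.FBL.IsZeroSumPrimitive V C) : ∃ v ∈ V, K V A v = C := by
  classical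
  obtain ⟨hCV, hnf, hf, hs⟩ := hC
  have hne : C.Nonempty := by
    rw [Finset.nonempty_iff_ne_empty]
    rintro rfl
    apply hnf
    obtain ⟨B⟩ := exists_facet' hV
    exact isFace_of_facet B (Finset.empty_subset _)
  obtain ⟨v, hv⟩ := hne
  have hvV := hCV hv
  obtain ⟨B, hB⟩ := facet_of_isFace hV (hf v hv)
  have hvB : v ∉ B.F := by
    intro hvB
    apply hnf
    apply isFace_of_facet B
    intro x hx
    by_cases hxv : x = v
    · rw [hxv]
      exact hvB
    · exact hB (Finset.mem_erase.2 ⟨hxv, hx⟩)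
  set r : (Fin n → ℤ) → ℤ := fun x => if x ∈ C then 1 else 0 with hr
  have hrel : IsRel V r := by
    unfold IsRel
    simp only [hr, ite_smul, one_smul, zero_smul]
    rw [← Finset.sum_filter]
    have : V.filter (fun x => x ∈ C) = C := by
      ext x
      rw [Finset.mem_filter]
      exact ⟨fun hx => hx.2, fun hx => ⟨hCV hx, hx⟩⟩
    rw [this]
    exact hs
  have hrv : r v = 1 := by simp [hr, hv]
  have hBd : deg V r = B.d v := by
    rw [deg_eq B hrel, Finset.sum_eq_single v]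
    · rw [hrv, one_mul]
    · intro x _ hxv
      by_cases hxC : x ∈ C
      · rw [B.d_mem (hB (Finset.mem_erase.2 ⟨hxv, hxC⟩)), mul_zero]
      · simp [hr, hxC]
    · intro h'
      exact absurd hvV h'
  have hk1 : k ≤ deg V r := by
    apply nonneg_deg h hrel ?_ hvV hrv.ge
    intro x _
    simp only [hr]
    split_ifs
    · norm_num
    · exact le_refl 0
  have hk2 : B.d v = k := le_antisymm (h.le B v hvV) (by rw [← hBd]; exact hk1)
  refine ⟨v, hvV, ?_⟩
  have heq : ∀ x ∈ V, relOf B v x = r x := by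
    intro x hx
    refine rel_ext B (relOf_isRel B hvV) hrel ?_ hx
    intro y _ hyB
    by_cases hyv : y = v
    · subst hyv
      rw [relOf_self B hyB, hrv]
    · rw [relOf_out B hyB hyv]
      have hyC : y ∉ C := fun hyC => hyB (hB (Finset.mem_erase.2 ⟨hyv, hyC⟩))
      simp [hr, hyC]
  ext x
  rw [mem_K]
  constructor
  · rintro ⟨hx, h1⟩
    rw [← D_uniq hV h hvV B hk2 hx, heq x hx] at h1
    by_contra hxC
    simp [hr, hxC] at h1
  · intro hx
    refine ⟨hCV hx, ?_⟩
    rw [← D_uniq hV h hvV B hk2 (hCV hx), heq x (hCV hx)]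
    simp [hr, hx]

end Col

theorem main (hS : Pool.Agent.FBL.IsSmoothFano V)
    (hF' : Pool.Agent.FBL.numOrbits V = Pool.Agent.FBL.invRank V + 1) :
    ∃ s : ℕ,
      (∀ v ∈ V, ∃! K, Pool.Agent.FBL.IsZeroSumPrimitive V K ∧ v ∈ K) ∧
      (∀ K, Pool.Agent.FBL.IsZeroSumPrimitive V K → K.card = s ∧
        (∀ L, Pool.Agent.FBL.IsZeroSumPrimitive V L → Pool.Agent.FBL.Carries V K L) ∧
        ∀ v ∈ V, ∃ w ∈ K, w ∈ Pool.Agent.FBL.orbitOf V v) ∧
      (∀ a : (Fin n → ℤ) → ℕ, ∑ v ∈ V, a v • v = 0 → (∃ v ∈ V, a v ≠ 0) →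
        s ≤ ∑ v ∈ V, a v) ∧
      (∃ (q : ℕ) (m : (Fin n → ℤ) →+ ℤ), Pool.Agent.FBL.numOrbits V ≤ q ∧
        ∀ v ∈ V, (q : ℤ) ∣ m v - 1) ∧
      (¬ Pool.Agent.FBL.VertexTransitive V → 16 ≤ n ∧ n + 6 ≤ V.card ∧ 3 * s ≤ V.card ∧
        ∀ (r : ℕ) (m : (Fin n → ℤ) →+ ℤ), (∀ v ∈ V, (r : ℤ) ∣ m v - 1) → 4 * r ≤ s) := by
  classical
  have hV := core_of (preFano_of hS)
  have hF := fibreLike_of hF'
  obtain ⟨k, A, h⟩ := exists_col hV hF
  obtain ⟨T, hT⟩ := exists_gen hV hF
  have hkn : ((k.toNat : ℕ) : ℤ) = k := Int.toNat_of_nonneg h.kpos.le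
  refine ⟨k.toNat, ?_, ?_, ?_, ?_, ?_⟩
  · intro v hv
    refine ⟨K V A v, ⟨Col.K_zsp hV h hv, Col.self_mem h hv⟩, ?_⟩
    rintro L ⟨hL, hvL⟩
    obtain ⟨w, hw, rfl⟩ := Col.zsp_eq hV h hL
    exact (Col.K_eq hV h hw hvL).symm
  · intro K hK
    obtain ⟨v, hv, rfl⟩ := Col.zsp_eq hV h hK
    refine ⟨?_, ?_, ?_⟩
    · have := Col.K_card hV h hv
      omega
    · intro L hL
      obtain ⟨w, hw, rfl⟩ := Col.zsp_eq hV h hL
      obtain ⟨g, hg, he⟩ := Col.K_trans hV hF h hv hw
      exact ⟨g.toAddEquiv, hg, he⟩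
    · intro x hx
      obtain ⟨y, hy, hxy⟩ := Col.K_meets hV hF h hv hx
      refine ⟨y, hy, ?_⟩
      rw [← orbit_set]
      exact hxy
  · intro a ha hne
    obtain ⟨v, hv, hav⟩ := hne
    have hr : IsRel V (fun x => (a x : ℤ)) := by
      unfold IsRel
      rw [← ha]
      exact Finset.sum_congr rfl fun x _ => natCast_zsmul x (a x)
    have h1 := Col.nonneg_deg h hr (fun x _ => by positivity) hv (by
      have : 1 ≤ a v := Nat.one_le_iff_ne_zero.2 hav
      exact_mod_cast this)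
    unfold deg at h1
    have h2 : k ≤ ((∑ v ∈ V, a v : ℕ) : ℤ) := by
      push_cast
      exact h1
    omega
  · have hTn : ((T.toNat : ℕ) : ℤ) = T := Int.toNat_of_nonneg hT.pos.le
    obtain ⟨m, hm⟩ := (indexDvd_iff hV hT T.toNat).2 (by rw [hTn])
    refine ⟨T.toNat, m.toAddMonoidHom, ?_, ?_⟩
    · obtain ⟨r, hr, hrT⟩ := hT.ex
      have h5 := orbitCount_le hV hF hr (by rw [hrT]; exact hT.pos)
      rw [hrT, orbitCount_eq] at h5
      omega
    · intro v hv
      have h6 := hm v hv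
      rw [← dvd_neg, neg_sub] at h6
      exact h6
  · intro hVT
    have hVT' : ¬ VertexTransitive V := by
      intro h'
      apply hVT
      intro v hv w hw
      exact same_iff.1 (h' v hv w hw)
    obtain ⟨_, _, h3, _⟩ := Col.bounds hV hF h hT hVT'
    have hB : 16 ≤ n ∧ n + 6 ≤ V.card := by
      rcases Pool.Agent.FBL.main' hS hF' with h' | ⟨h1, h2, _, _⟩
      · exact absurd h' hVT
      · exact ⟨h1, h2⟩
    refine ⟨hB.1, hB.2, ?_, ?_⟩
    · have h4 := Col.V_card hV h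
      have h5 : (3 : ℤ) * k ≤ (V.card : ℤ) := by
        rw [h4]
        have h6 : (3 : ℤ) ≤ (Col.Kn V A).card := by exact_mod_cast h3
        exact mul_le_mul_of_nonneg_right h6 h.kpos.le
      omega
    · intro r m hm
      have hF2 := hF'
      rw [Pool.Agent.FBL.numOrbits_eq, Pool.Agent.FBL.invRank_eq] at hF2
      obtain ⟨q, hq0, _, _, hset⟩ := Pool.Agent.FBL.setup_of hS hF2
      obtain ⟨b, S⟩ := hset (fun h' => hVT (Pool.Agent.FBL.vertexTransitive_iff.2 h'))
      have hb := S.four_le_h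
      obtain ⟨v, hv⟩ := nonempty_of_fibreLike hF
      have hc := S.card _ (Col.K_block hV h hv)
      have hc2 := Col.K_card hV h hv
      obtain ⟨γ, hγ, hγq⟩ := S.gen
      have hrq : (r : ℤ) ∣ q := by
        rw [← hγq]
        have hγ' : IsRel V γ := hγ
        have e1 := hγ'.mapZ m.toIntLinearMap
        have e2 : ∑ x ∈ V, γ x = ∑ x ∈ V, (-(γ x)) * (m x - 1) := by
          have e3 : ∑ x ∈ V, (-(γ x)) * (m x - 1)
              = ∑ x ∈ V, γ x - ∑ x ∈ V, γ x * m.toIntLinearMap x := by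
            rw [← Finset.sum_sub_distrib]
            refine Finset.sum_congr rfl fun x _ => ?_
            rw [AddMonoidHom.coe_toIntLinearMap]
            ring
          rw [e3, e1, sub_zero]
        rw [e2]
        exact Finset.dvd_sum fun x hx => Dvd.dvd.mul_left (hm x hx) _
      have hrq' : r ∣ q := by exact_mod_cast hrq
      have hle := Nat.le_of_dvd hq0 hrq'
      have h5 : 4 * r ≤ (K V A v).card := by
        rw [hc]
        calc 4 * r ≤ b * q := Nat.mul_le_mul hb hle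
          _ = q * b := Nat.mul_comm _ _
      omega

end FLT99
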