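import Pool.Agent.FLT99.Defs

namespace FLT99

open Finset

variable {n : ℕ} {V : Finset (Fin n → ℤ)}

/-- A facet with its dual basis. -/
structure Facet (V : Finset (Fin n → ℤ)) where
  F : Finset (Fin n → ℤ)
  sub : F ⊆ V
  card : F.card = n
  co : (Fin n → ℤ) → ((Fin n → ℤ) →ₗ[ℤ] ℤ)
  co_self : ∀ f ∈ F, co f f = 1
  co_ne : ∀ f ∈ F, ∀ g ∈ F, f ≠ g → co f g = 0
  expand : ∀ x, ∑ f ∈ F, co f x • f = x
  neg : ∀ v ∈ V, v ∉ F → ∑ f ∈ F, co f v ≤ 0

/-- The working hypotheses. -/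
structure Core (V : Finset (Fin n → ℤ)) : Prop where
  pos : ∀ ψ : (Fin n → ℤ) →ₗ[ℤ] ℝ, ψ ≠ 0 → ∃ v ∈ V, 0 < ψ v
  basis : ∀ φ : (Fin n → ℤ) →ₗ[ℤ] ℝ, (∀ v ∈ V, φ v ≤ 1) →
    (∀ ψ : (Fin n → ℤ) →ₗ[ℤ] ℝ, (∀ v ∈ V, φ v = 1 → ψ v = 0) → ψ = 0) →
    ∃ A : Facet V, ∀ v, v ∈ A.F ↔ v ∈ V ∧ φ v = 1
  rel : ∃ c : (Fin n → ℤ) → ℝ, (∀ v ∈ V, 0 < c v) ∧
    ∀ ψ : (Fin n → ℤ) →ₗ[ℤ] ℝ, ∑ v ∈ V, c v * ψ v = 0

/-- Real extension of a form. -/
noncomputable def ext (ψ : (Fin n → ℤ) →ₗ[ℤ] ℝ) : (Fin n → ℝ) →ₗ[ℝ] ℝ :=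
  ∑ i, (ψ (Pi.single i 1)) • LinearMap.proj i

theorem ext_apply (ψ : (Fin n → ℤ) →ₗ[ℤ] ℝ) (x : Fin n → ℝ) :
    ext ψ x = ∑ i, ψ (Pi.single i 1) * x i := by
  simp [ext, LinearMap.sum_apply]

theorem ext_toR (ψ : (Fin n → ℤ) →ₗ[ℤ] ℝ) (v : Fin n → ℤ) : ext ψ (toR v) = ψ v := by
  rw [ext_apply]
  have h : v = ∑ i, v i • (Pi.single i (1 : ℤ) : Fin n → ℤ) := by
    funext j
    simp [Finset.sum_apply, Pi.single_apply]
  conv_rhs => rw [h]
  rw [map_sum]
  refine Finset.sum_congr rfl fun i _ => ?_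
  rw [map_smul]
  simp [toR, mul_comm]

theorem toR_injective : Function.Injective (toR : (Fin n → ℤ) → (Fin n → ℝ)) := by
  intro a b h
  funext i
  have := congrFun h i
  simpa [toR] using this

/-- Restriction of a real form to the lattice. -/
noncomputable def res (f : (Fin n → ℝ) →ₗ[ℝ] ℝ) : (Fin n → ℤ) →ₗ[ℤ] ℝ where
  toFun := fun v => f (toR v)
  map_add' := by
    intro a b
    rw [← map_add]
    congr 1
    funext i
    simp [toR]
  map_smul' := by
    intro c a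
    have : toR (c • a) = (c : ℝ) • toR a := by
      funext i
      simp [toR]
    rw [this, map_smul]
    simp

theorem res_apply (f : (Fin n → ℝ) →ₗ[ℝ] ℝ) (v : Fin n → ℤ) : res f v = f (toR v) := rfl

theorem res_ext (ψ : (Fin n → ℤ) →ₗ[ℤ] ℝ) : res (ext ψ) = ψ := by
  ext i
  simp only [LinearMap.comp_apply]
  rw [res_apply, ext_toR]

theorem ext_res (f : (Fin n → ℝ) →ₗ[ℝ] ℝ) : ext (res f) = f := by
  apply LinearMap.pi_ext'
  intro i
  ext
  simp only [LinearMap.comp_apply]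
  rw [ext_apply]
  simp only [res_apply]
  have h : toR (Pi.single i (1 : ℤ) : Fin n → ℤ) = Pi.single i (1 : ℝ) := by
    funext j
    simp [toR, Pi.single_apply]
  rw [Finset.sum_eq_single i]
  · rw [h]
    simp
  · intro j _ hj
    simp [hj]
  · simp

theorem small (hV : PreFano V) (x : Fin n → ℝ) :
    ∃ ε : ℝ, 0 < ε ∧ ε • x ∈ convexHull ℝ (toR '' (V : Set (Fin n → ℤ))) := by
  have h0 : convexHull ℝ (toR '' (V : Set (Fin n → ℤ))) ∈ nhds (0 : Fin n → ℝ) :=
    mem_interior_iff_mem_nhds.1 hV.zero_mem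
  have hc : Filter.Tendsto (fun t : ℝ => t • x) (nhds 0) (nhds (0 : Fin n → ℝ)) := by
    have : Continuous (fun t : ℝ => t • x) := by fun_prop
    have h2 := this.tendsto 0
    simpa using h2
  have h1 := hc h0
  rw [Filter.mem_map, Metric.mem_nhds_iff] at h1
  obtain ⟨ε, hε, hb⟩ := h1
  refine ⟨ε / 2, by positivity, ?_⟩
  have : (ε / 2) ∈ Metric.ball (0 : ℝ) ε := by
    rw [Metric.mem_ball, Real.dist_eq, sub_zero, abs_of_pos (by positivity)]
    linarith
  exact hb this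

theorem core_pos (hV : PreFano V) (ψ : (Fin n → ℤ) →ₗ[ℤ] ℝ) (hψ : ψ ≠ 0) :
    ∃ v ∈ V, 0 < ψ v := by
  by_contra hcon
  push Not at hcon
  apply hψ
  have hle : ∀ y ∈ convexHull ℝ (toR '' (V : Set (Fin n → ℤ))), ext ψ y ≤ 0 := by
    intro y hy
    have hconv : Convex ℝ {y : Fin n → ℝ | ext ψ y ≤ 0} :=
      convex_halfSpace_le (ext ψ).isLinear 0
    have hs : toR '' (V : Set (Fin n → ℤ)) ⊆ {y : Fin n → ℝ | ext ψ y ≤ 0} := by
      rintro _ ⟨v, hv, rfl⟩
      show ext ψ (toR v) ≤ 0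
      rw [ext_toR]
      exact hcon v hv
    exact convexHull_min hs hconv hy
  have hall : ∀ x, ext ψ x ≤ 0 := by
    intro x
    obtain ⟨ε, hε, hx⟩ := small hV x
    have := hle _ hx
    rw [map_smul, smul_eq_mul] at this
    by_contra hc
    push Not at hc
    have : 0 < ε * ext ψ x := mul_pos hε hc
    linarith
  have hz : ext ψ = 0 := by
    ext x
    have h1 := hall (Pi.single x 1)
    have h2 := hall (-(Pi.single x 1))
    rw [map_neg] at h2
    have : ext ψ (Pi.single x 1) = 0 := by linarith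
    simpa using this
  have := res_ext ψ
  rw [hz] at this
  rw [← this]
  ext i
  simp [res_apply]

theorem core_rel (hV : PreFano V) : ∃ c : (Fin n → ℤ) → ℝ, (∀ v ∈ V, 0 < c v) ∧
    ∀ ψ : (Fin n → ℤ) →ₗ[ℤ] ℝ, ∑ v ∈ V, c v * ψ v = 0 := by
  classical
  have hone : ∀ v ∈ V, ∃ c : (Fin n → ℤ) → ℝ, (∀ x ∈ V, 0 ≤ c x) ∧ 0 < c v ∧
      ∀ ψ : (Fin n → ℤ) →ₗ[ℤ] ℝ, ∑ x ∈ V, c x * ψ x = 0 := by
    intro v hv
    obtain ⟨ε, hε, hx⟩ := small hV (-(toR v))
    have hset : toR '' (V : Set (Fin n → ℤ)) = ((V.image toR : Finset (Fin n → ℝ)) : Set _) := by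
      simp
    rw [hset, Finset.mem_convexHull] at hx
    obtain ⟨w, hw0, hw1, hw2⟩ := hx
    rw [Finset.centerMass_eq_of_sum_1 _ _ hw1] at hw2
    rw [Finset.sum_image (fun a _ b _ h => toR_injective h)] at hw2
    refine ⟨fun x => w (toR x) + if x = v then ε else 0, ?_, ?_, ?_⟩
    · intro x hx
      have h1 := hw0 (toR x) (Finset.mem_image_of_mem _ hx)
      have h2 : (0 : ℝ) ≤ if x = v then ε else 0 := by
        split_ifs
        · exact hε.le
        · exact le_refl 0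
      exact add_nonneg h1 h2
    · have h1 := hw0 (toR v) (Finset.mem_image_of_mem _ hv)
      simp only [if_true]
      linarith
    · intro ψ
      have h3 := congrArg (ext ψ) hw2
      rw [map_sum] at h3
      simp only [id_eq, map_smul, smul_eq_mul, map_neg, ext_toR] at h3
      have h4 : ∑ x ∈ V, (w (toR x) + if x = v then ε else 0) * ψ x
          = ∑ x ∈ V, w (toR x) * ψ x + ∑ x ∈ V, (if x = v then ε else 0) * ψ x := by
        rw [← Finset.sum_add_distrib]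
        refine Finset.sum_congr rfl fun x _ => ?_
        ring
      rw [h4, h3]
      have h5 : ∑ x ∈ V, (if x = v then ε else 0) * ψ x = ε * ψ v := by
        rw [Finset.sum_eq_single v]
        · simp
        · intro b _ hb
          simp [hb]
        · intro hh
          exact absurd hv hh
      rw [h5]
      ring
  choose! c hc0 hc1 hc2 using hone
  refine ⟨fun x => ∑ v ∈ V, c v x, ?_, ?_⟩
  · intro v hv
    exact Finset.sum_pos' (fun u hu => hc0 u hu v hv) ⟨v, hv, hc1 v hv⟩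
  · intro ψ
    simp only [Finset.sum_mul]
    rw [Finset.sum_comm]
    exact Finset.sum_eq_zero fun u hu => hc2 u hu ψ

theorem core_basis (hV : PreFano V) (φ : (Fin n → ℤ) →ₗ[ℤ] ℝ) (hφ : ∀ v ∈ V, φ v ≤ 1)
    (hs : ∀ ψ : (Fin n → ℤ) →ₗ[ℤ] ℝ, (∀ v ∈ V, φ v = 1 → ψ v = 0) → ψ = 0) :
    ∃ A : Facet V, ∀ v, v ∈ A.F ↔ v ∈ V ∧ φ v = 1 := by
  classical
  have h1 : ∀ v ∈ V, ext φ (toR v) ≤ 1 := by
    intro v hv
    rw [ext_toR]
    exact hφ v hv
  have h2 : Submodule.span ℝ (toR '' {v | v ∈ V ∧ ext φ (toR v) = 1}) = ⊤ := by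
    by_contra hne
    obtain ⟨f, hf, hfk⟩ := Submodule.exists_le_ker_of_lt_top _ (lt_top_iff_ne_top.2 hne)
    apply hf
    have hz : res f = 0 := by
      apply hs
      intro v hv hv1
      have hm : toR v ∈ Submodule.span ℝ (toR '' {v | v ∈ V ∧ ext φ (toR v) = 1}) := by
        apply Submodule.subset_span
        exact ⟨v, ⟨hv, by rw [ext_toR]; exact hv1⟩, rfl⟩
      exact hfk hm
    rw [← ext_res f, hz]
    ext i
    rw [LinearMap.comp_apply, ext_apply]
    simp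
  obtain ⟨hli, hsp⟩ := hV.smooth (ext φ) h1 h2
  have hsp' : ⊤ ≤ Submodule.span ℤ (Set.range
      (Subtype.val : {v // v ∈ V ∧ ext φ (toR v) = 1} → (Fin n → ℤ))) := by
    rw [Subtype.range_coe_subtype, hsp]
  let b := Module.Basis.mk hli hsp'
  have hfin : Finite {v // v ∈ V ∧ ext φ (toR v) = 1} := by
    apply Set.Finite.subset (V.finite_toSet)
    intro v hv
    exact hv.1
  have hft : Fintype {v // v ∈ V ∧ ext φ (toR v) = 1} := Fintype.ofFinite _
  have hb : ∀ i, b i = i.1 := fun i => by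
    simp [b]
  let F : Finset (Fin n → ℤ) := V.filter (fun v => ext φ (toR v) = 1)
  have hmemF : ∀ v, v ∈ F ↔ v ∈ V ∧ ext φ (toR v) = 1 := by
    intro v
    simp [F]
  let co : (Fin n → ℤ) → ((Fin n → ℤ) →ₗ[ℤ] ℤ) := fun f =>
    if h : f ∈ V ∧ ext φ (toR f) = 1 then b.coord ⟨f, h⟩ else 0
  have hco : ∀ f (h : f ∈ V ∧ ext φ (toR f) = 1), co f = b.coord ⟨f, h⟩ := by
    intro f h
    simp only [co, dif_pos h]
  have hexp : ∀ x, ∑ f ∈ F, co f x • f = x := by
    intro x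
    rw [Finset.sum_subtype F hmemF]
    conv_rhs => rw [← b.sum_repr x]
    refine Finset.sum_congr rfl fun i _ => ?_
    rw [hb, hco i.1 i.2]
    rfl
  refine ⟨⟨F, ?_, ?_, co, ?_, ?_, hexp, ?_⟩, ?_⟩
  · intro v hv
    exact ((hmemF v).1 hv).1
  · have hc1 := Module.finrank_eq_card_basis b
    rw [Module.finrank_fin_fun] at hc1
    refine Eq.trans ?_ hc1.symm
    exact (Fintype.card_of_subtype F hmemF).symm
  · intro f hf
    rw [hco f ((hmemF f).1 hf)]
    have := b.repr_self ⟨f, (hmemF f).1 hf⟩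
    rw [hb] at this
    simp only [Module.Basis.coord_apply]
    rw [this]
    simp
  · intro f hf g hg hne
    rw [hco f ((hmemF f).1 hf)]
    have := b.repr_self ⟨g, (hmemF g).1 hg⟩
    rw [hb] at this
    simp only [Module.Basis.coord_apply]
    rw [this]
    rw [Finsupp.single_apply]
    rw [if_neg]
    intro h
    exact hne (congrArg Subtype.val h).symm
  · intro v hv hvF
    have hlt : φ v < 1 := by
      refine lt_of_le_of_ne (hφ v hv) ?_
      intro he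
      exact hvF ((hmemF v).2 ⟨hv, by rw [ext_toR]; exact he⟩)
    have hval : φ v = ((∑ f ∈ F, co f v : ℤ) : ℝ) := by
      conv_lhs => rw [← hexp v]
      rw [map_sum, Int.cast_sum]
      refine Finset.sum_congr rfl fun f hf => ?_
      rw [map_smul]
      have := ((hmemF f).1 hf).2
      rw [ext_toR] at this
      rw [this]
      simp
    rw [hval] at hlt
    have : (∑ f ∈ F, co f v) < 1 := by exact_mod_cast hlt
    linarith
  · intro v
    show v ∈ F ↔ _
    rw [hmemF, ext_toR]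

theorem core_of (hV : PreFano V) : Core V :=
  ⟨core_pos hV, core_basis hV, core_rel hV⟩

end FLT99
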