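import Pool.Agent.FLT99.Two

namespace FLT99

open Finset

variable {n : ℕ} {V : Finset (Fin n → ℤ)}

theorem IsRel.comp {r : (Fin n → ℤ) → ℤ} (hr : IsRel V r)
    {g : (Fin n → ℤ) ≃ₗ[ℤ] (Fin n → ℤ)} (hg : g ∈ latticeAut V) :
    IsRel V (fun x => r (g x)) := by
  unfold IsRel at *
  apply g.injective
  rw [map_sum, map_zero]
  simp only [map_smul]
  rw [sum_aut hg (fun x => r x • x)]
  exact hr

theorem Tw.map {v w : Fin n → ℤ} (h : Tw V v w)
    {g : (Fin n → ℤ) ≃ₗ[ℤ] (Fin n → ℤ)} (hg : g ∈ latticeAut V) : Tw V (g v) (g w) :=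
  fun _ hr => h _ (hr.comp hg)

open Classical in
/-- The class of twins. -/
noncomputable def cls (V : Finset (Fin n → ℤ)) (v : Fin n → ℤ) : Finset (Fin n → ℤ) :=
  V.filter (fun x => Tw V v x)

theorem mem_cls {v x : Fin n → ℤ} : x ∈ cls V v ↔ x ∈ V ∧ Tw V v x := by
  classical
  simp [cls]

theorem self_mem_cls {v : Fin n → ℤ} (hv : v ∈ V) : v ∈ cls V v := mem_cls.2 ⟨hv, Tw.refl v⟩

theorem cls_eq {v w : Fin n → ℤ} (h : Tw V v w) : cls V v = cls V w := by
  ext x
  rw [mem_cls, mem_cls]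
  exact and_congr_right fun _ => ⟨fun h' => h.symm.trans h', fun h' => h.trans h'⟩

theorem cls_card_map {v : Fin n → ℤ} {g : (Fin n → ℤ) ≃ₗ[ℤ] (Fin n → ℤ)}
    (hg : g ∈ latticeAut V) : (cls V (g v)).card = (cls V v).card := by
  symm
  refine Finset.card_bij (fun x _ => g x) ?_ ?_ ?_
  · intro x hx
    rw [mem_cls] at hx ⊢
    exact ⟨(hg x).2 hx.1, hx.2.map hg⟩
  · intro x _ y _ hxy
    exact g.injective hxy
  · intro y hy
    rw [mem_cls] at hy
    refine ⟨g⁻¹ y, ?_, g.apply_symm_apply y⟩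
    have hg' := (latticeAut V).inv_mem hg
    rw [mem_cls]
    refine ⟨(hg' y).2 hy.1, ?_⟩
    have h1 := hy.2.map hg'
    have h2 : g⁻¹ (g v) = v := g.symm_apply_apply v
    rwa [h2] at h1

theorem cls_card {v w : Fin n → ℤ} (h : SameOrbit V v w) : (cls V w).card = (cls V v).card := by
  obtain ⟨g, hg, rfl⟩ := h
  exact cls_card_map hg

namespace Col

variable {k : ℤ} {A : (Fin n → ℤ) → Facet V}

/-- The size of the twin classes divides every orbit sum. -/
theorem cls_dvd (hV : Core V) (hF : FibreLike V) (h : Col V k A) {v : Fin n → ℤ} (hv : v ∈ V)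
    {r : (Fin n → ℤ) → ℤ} (hr : IsRel V r) :
    ((cls V v).card : ℤ) ∣ ∑ x ∈ Orb V v, r x := by
  classical
  rw [← Finset.sum_fiberwise_of_maps_to (t := (Orb V v).image (cls V))
    (fun x hx => Finset.mem_image_of_mem (cls V) hx)]
  refine Finset.dvd_sum fun C hC => ?_
  rw [Finset.mem_image] at hC
  obtain ⟨y, hy, rfl⟩ := hC
  have hyV := (mem_Orb.1 hy).1
  have h1 : (Orb V v).filter (fun x => cls V x = cls V y) = cls V y := by
    ext x
    rw [Finset.mem_filter]
    constructor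
    · rintro ⟨hx, he⟩
      rw [← he]
      exact self_mem_cls (mem_Orb.1 hx).1
    · intro hx
      have hx' := mem_cls.1 hx
      refine ⟨mem_Orb.2 ⟨hx'.1, ?_⟩, (cls_eq hx'.2).symm⟩
      exact (mem_Orb.1 hy).2.trans
        (sameOrbit_of_tw hV hF h hyV (mem_of_tw hV h hyV hx'.1 hx'.2) hx'.2)
  rw [h1, Finset.sum_congr rfl (fun x hx => ((mem_cls.1 hx).2 r hr).symm), Finset.sum_const,
    nsmul_eq_mul, cls_card (mem_Orb.1 hy).2]
  exact dvd_mul_right _ _

/-- `K` meets every orbit. -/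
theorem K_meets (hV : Core V) (hF : FibreLike V) (h : Col V k A) {v w : Fin n → ℤ} (hv : v ∈ V)
    (hw : w ∈ V) : ∃ x ∈ K V A v, SameOrbit V w x := by
  obtain ⟨x, hx, hwx, h1⟩ := exists_pos_in_orbit hV hF (relOf_isRel (A v) hv)
    (by rw [relOf_deg (A v) hv (h.notMem hv), h.eq v hv]; exact h.kpos) hw
  exact ⟨x, mem_K.2 ⟨hx, h1⟩, hwx⟩

theorem trans_of (hV : Core V) (hF : FibreLike V) (h : Col V k A)
    (hall : ∀ v ∈ V, ∀ w ∈ K V A v, SameOrbit V v w) : VertexTransitive V := by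
  intro v hv w hw
  obtain ⟨x, hx, hwx⟩ := K_meets hV hF h hv hw
  exact (hall v hv x hx).trans hwx.symm

open Classical in
theorem K_orb (hV : Core V) (hF : FibreLike V) (h : Col V k A) {T M : ℤ} (hT : Gen V T)
    (hk : k = M * T) {v w : Fin n → ℤ} (hv : v ∈ V) (hw : w ∈ V) {r : (Fin n → ℤ) → ℤ}
    (hr : IsRel V r) (hrT : deg V r = T) :
    (((K V A v).filter (fun x => SameOrbit V w x)).card : ℤ) = M * ∑ x ∈ Orb V w, r x := by
  have e1 := star hV hF (relOf_isRel (A v) hv) hw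
  have e2 := star hV hF hr hw
  rw [relOf_deg (A v) hv (h.notMem hv), h.eq v hv,
    Finset.sum_congr rfl (fun x hx => D_val hV h hv (mem_Orb.1 hx).1), ← Finset.sum_filter,
    Finset.sum_const, nsmul_eq_mul, mul_one] at e1
  have h1 : (Orb V w).filter (fun x => x ∈ K V A v)
      = (K V A v).filter (fun x => SameOrbit V w x) := by
    ext x
    rw [Finset.mem_filter, Finset.mem_filter, mem_Orb]
    exact ⟨fun hx => ⟨hx.2, hx.1.2⟩, fun hx => ⟨⟨K_sub v hx.1, hx.2⟩, hx.1⟩⟩
  rw [h1] at e1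
  rw [hrT] at e2
  have hV0 : (V.card : ℤ) ≠ 0 := by
    have : 0 < V.card := Finset.card_pos.2 ⟨v, hv⟩
    have : V.card ≠ 0 := by omega
    exact_mod_cast this
  apply mul_left_cancel₀ hV0
  rw [e1, hk]
  linear_combination (-M) * e2

open Classical in
/-- The part of `K` in an orbit has at least `M` times the size of a twin class. -/
theorem K_orb_ge (hV : Core V) (hF : FibreLike V) (h : Col V k A) {T M : ℤ} (hT : Gen V T)
    (hk : k = M * T) (hM : 0 < M) {v w : Fin n → ℤ} (hv : v ∈ V) (hw : w ∈ V) :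
    M * (cls V w).card ≤ (((K V A v).filter (fun x => SameOrbit V w x)).card : ℤ) := by
  obtain ⟨r, hr, hrT⟩ := hT.ex
  rw [K_orb hV hF h hT hk hv hw hr hrT]
  have h1 := pos_in_orbit hV hF hr (by rw [hrT]; exact hT.pos) hw
  have h2 := Int.le_of_dvd h1 (cls_dvd hV hF h hw hr)
  exact mul_le_mul_of_nonneg_left h2 hM.le

theorem exists_M (h : Col V k A) {T : ℤ} (hT : Gen V T) (hne : V.Nonempty) :
    ∃ M : ℤ, 0 < M ∧ k = M * T := by
  obtain ⟨v, hv⟩ := hne
  obtain ⟨M, hM⟩ := hT.dvd_d (A v) hv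
  rw [h.eq v hv] at hM
  refine ⟨M, ?_, by rw [hM]; ring⟩
  have h1 := h.kpos
  have h2 := hT.pos
  rw [hM] at h1
  exact pos_of_mul_pos_right h1 h2.le

theorem M_ne_one (hV : Core V) (hF : FibreLike V) (h : Col V k A) {T : ℤ} (hT : Gen V T)
    (hVT : ¬ VertexTransitive V) : k ≠ T := by
  intro hk
  apply hVT
  refine trans_of hV hF h fun v hv w hw => ?_
  refine (of_lt hV hF h hv hw fun y hy hyF => ?_).2
  rw [hk]
  exact hT.le_d (A v) hy hyF

theorem M_ne_two (hV : Core V) (hF : FibreLike V) (h : Col V k A) {T : ℤ} (hT : Gen V T)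
    (hVT : ¬ VertexTransitive V) : k ≠ 2 * T := by
  classical
  intro hk
  unfold VertexTransitive at hVT
  push Not at hVT
  obtain ⟨a, ha, b, hb, hab⟩ := hVT
  have h1 : ∀ w ∈ K V A a, SameOrbit V a w → Tw V a w := by
    intro w hw haw
    obtain ⟨x, hx, hbx⟩ := K_meets hV hF h ha hb
    have hxV := K_sub a hx
    have hKx := K_eq hV h ha hx
    refine twTwo hV hF h hT hk hxV (by rw [hKx]; exact self_mem h ha)
      (by rw [hKx]; exact hw) ?_ ?_
    · intro hxa
      exact hab (hbx.trans hxa).symm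
    · intro hxw
      exact hab (haw.trans (hbx.trans hxw).symm)
  have h2 := K_orb_ge hV hF h hT hk (by norm_num) ha ha
  have h3 : (K V A a).filter (fun x => SameOrbit V a x) ⊆ cls V a := by
    intro x hx
    rw [Finset.mem_filter] at hx
    exact mem_cls.2 ⟨K_sub a hx.1, h1 x hx.1 hx.2⟩
  have h4 := Finset.card_le_card h3
  have h5 : 0 < (cls V a).card := Finset.card_pos.2 ⟨a, self_mem_cls ha⟩
  omega

theorem M_ge (hV : Core V) (hF : FibreLike V) (h : Col V k A) {T M : ℤ} (hT : Gen V T)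
    (hk : k = M * T) (hM : 0 < M) (hVT : ¬ VertexTransitive V) : 3 ≤ M := by
  have h1 := M_ne_one hV hF h hT hVT
  have h2 := M_ne_two hV hF h hT hVT
  by_contra hcon
  push Not at hcon
  have : M = 1 ∨ M = 2 := by omega
  rcases this with rfl | rfl
  · exact h1 (by rw [hk]; ring)
  · exact h2 hk

/-- The number of collections. -/
noncomputable def Kn (V : Finset (Fin n → ℤ)) (A : (Fin n → ℤ) → Facet V) :
    Finset (Finset (Fin n → ℤ)) := V.image (K V A)

theorem mem_Kn {C : Finset (Fin n → ℤ)} : C ∈ Kn V A ↔ ∃ v ∈ V, K V A v = C := by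
  rw [Kn, Finset.mem_image]

/-- A sum over `V` by collections. -/
theorem sum_Kn (hV : Core V) (h : Col V k A) {R : Type*} [AddCommMonoid R]
    (f : (Fin n → ℤ) → R) : ∑ x ∈ V, f x = ∑ C ∈ Kn V A, ∑ x ∈ C, f x := by
  classical
  rw [← Finset.sum_fiberwise_of_maps_to (t := Kn V A)
    (fun x hx => mem_Kn.2 ⟨x, hx, rfl⟩)]
  refine Finset.sum_congr rfl fun C hC => ?_
  obtain ⟨v, hv, rfl⟩ := mem_Kn.1 hC
  refine Finset.sum_congr ?_ fun _ _ => rfl
  ext x
  rw [Finset.mem_filter]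
  constructor
  · rintro ⟨hx, he⟩
    rw [← he]
    exact self_mem h hx
  · intro hx
    exact ⟨K_sub v hx, K_eq hV h hv hx⟩

/-- With at most two collections all degrees are divisible by `k`. -/
theorem dvd_of_two (hV : Core V) (h : Col V k A) (hne : V.Nonempty)
    (hc : (Kn V A).card ≤ 2) {r : (Fin n → ℤ) → ℤ} (hr : IsRel V r) : k ∣ deg V r := by
  classical
  obtain ⟨v₀, hv₀⟩ := hne
  by_cases hall : ∀ x ∈ V, x ∈ K V A v₀
  · rw [deg_eq (A v₀) hr, Finset.sum_eq_single v₀]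
    · rw [h.eq v₀ hv₀]
      exact dvd_mul_left _ _
    · intro x hx hxv
      rw [(A v₀).d_mem (K_in hV h hv₀ (hall x hx) hxv), mul_zero]
    · intro h'
      exact absurd hv₀ h'
  · push Not at hall
    obtain ⟨v₁, hv₁, hv₁K⟩ := hall
    have hne01 : K V A v₀ ≠ K V A v₁ := by
      intro he
      apply hv₁K
      rw [he]
      exact self_mem h hv₁
    have hKn : Kn V A = {K V A v₀, K V A v₁} := by
      symm
      apply Finset.eq_of_subset_of_card_le
      · intro C hC
        rw [Finset.mem_insert, Finset.mem_singleton] at hC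
        rcases hC with rfl | rfl
        · exact mem_Kn.2 ⟨v₀, hv₀, rfl⟩
        · exact mem_Kn.2 ⟨v₁, hv₁, rfl⟩
      · rw [Finset.card_pair hne01]
        exact hc
    have hsum : ∀ B : Facet V, deg V r =
        ∑ x ∈ K V A v₀, r x * B.d x + ∑ x ∈ K V A v₁, r x * B.d x := by
      intro B
      rw [deg_eq B hr, sum_Kn hV h, hKn, Finset.sum_pair hne01]
    obtain ⟨a, ha, hmax⟩ := Finset.exists_max_image (K V A v₀) r ⟨v₀, self_mem h hv₀⟩
    obtain ⟨b, hb, hmin⟩ := Finset.exists_min_image (K V A v₁) r ⟨v₁, self_mem h hv₁⟩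
    have haV := K_sub v₀ ha
    have hbV := K_sub v₁ hb
    have ea := K_eq hV h hv₀ ha
    have eb := K_eq hV h hv₁ hb
    have own : ∀ v ∈ V, ∑ x ∈ K V A v, r x * (A v).d x = r v * k := by
      intro v hv
      rw [Finset.sum_eq_single v]
      · rw [h.eq v hv]
      · intro x hx hxv
        rw [(A v).d_mem (K_in hV h hv hx hxv), mul_zero]
      · intro h'
        exact absurd (self_mem h hv) h'
    have h1 := hsum (A a)
    rw [← ea, own a haV] at h1
    have h2 := hsum (A b)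
    rw [← eb, own b hbV] at h2
    have h3 : ∑ x ∈ K V A v₁, r b * (A a).d x ≤ ∑ x ∈ K V A v₁, r x * (A a).d x :=
      Finset.sum_le_sum fun x hx =>
        mul_le_mul_of_nonneg_right (hmin x hx) ((A a).d_nonneg (K_sub v₁ hx))
    rw [← Finset.mul_sum, K_d hV h hv₁] at h3
    have h4 : ∑ x ∈ K V A v₀, r x * (A b).d x ≤ ∑ x ∈ K V A v₀, r a * (A b).d x :=
      Finset.sum_le_sum fun x hx =>
        mul_le_mul_of_nonneg_right (hmax x hx) ((A b).d_nonneg (K_sub v₀ hx))
    rw [← Finset.mul_sum, K_d hV h hv₀] at h4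
    have h5 : deg V r = (r a + r b) * k := by
      apply le_antisymm
      · rw [h2]
        linarith
      · rw [h1]
        linarith
    rw [h5]
    exact dvd_mul_left _ _

theorem three (hV : Core V) (hF : FibreLike V) (h : Col V k A) {T M : ℤ} (hT : Gen V T)
    (hk : k = M * T) (hM : 3 ≤ M) : 3 ≤ (Kn V A).card := by
  by_contra hcon
  push Not at hcon
  obtain ⟨r, hr, hrT⟩ := hT.ex
  have h1 := dvd_of_two hV h (nonempty_of_fibreLike hF) (by omega) hr
  rw [hrT] at h1
  have h2 := Int.le_of_dvd hT.pos h1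
  have h3 := hT.pos
  nlinarith

/-- `|V| = c k`. -/
theorem V_card (hV : Core V) (h : Col V k A) : (V.card : ℤ) = (Kn V A).card * k := by
  classical
  have h1 := sum_Kn hV h (fun _ => (1 : ℤ))
  rw [Finset.sum_const, nsmul_eq_mul, mul_one] at h1
  rw [h1, Finset.sum_congr rfl (g := fun _ => k), Finset.sum_const, nsmul_eq_mul]
  intro C hC
  obtain ⟨v, hv, rfl⟩ := mem_Kn.1 hC
  rw [Finset.sum_const, nsmul_eq_mul, mul_one, K_card hV h hv]

open Classical in
/-- The number of elements of a collection off a facet. -/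
theorem off_le (hV : Core V) (h : Col V k A) {T M : ℤ} (hT : Gen V T)
    (hk : k = M * T) (B : Facet V) {z : Fin n → ℤ} (hz : z ∈ V) :
    (((K V A z).filter (fun x => x ∉ B.F)).card : ℤ) ≤ M := by
  have h1 := K_d hV h hz B
  have h2 : ∑ x ∈ (K V A z).filter (fun x => x ∉ B.F), B.d x ≤ ∑ x ∈ K V A z, B.d x :=
    Finset.sum_le_sum_of_subset_of_nonneg (Finset.filter_subset _ _)
      (fun x hx _ => B.d_nonneg (K_sub z hx))
  have h3 : ∑ x ∈ (K V A z).filter (fun x => x ∉ B.F), T ≤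
      ∑ x ∈ (K V A z).filter (fun x => x ∉ B.F), B.d x := by
    refine Finset.sum_le_sum fun x hx => ?_
    rw [Finset.mem_filter] at hx
    exact hT.le_d B (K_sub z hx.1) hx.2
  rw [Finset.sum_const, nsmul_eq_mul] at h3
  rw [h1, hk] at h2
  exact le_of_mul_le_mul_right (h3.trans h2) hT.pos

theorem sdiff_card (A : Facet V) : (n : ℤ) = V.card - (V \ A.F).card := by
  have h1 := Finset.card_sdiff_add_card_eq_card A.sub
  rw [A.card] at h1
  omega

/-- The bound for the number of vertices off a maximal facet. -/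
theorem off_total (hV : Core V) (h : Col V k A) {T M : ℤ} (hT : Gen V T)
    (hk : k = M * T) {v : Fin n → ℤ} (hv : v ∈ V) :
    ((V \ (A v).F).card : ℤ) ≤ 1 + ((Kn V A).card - 1) * M := by
  classical
  have h1 : ((V \ (A v).F).card : ℤ) = ∑ x ∈ V, if x ∉ (A v).F then (1 : ℤ) else 0 := by
    rw [← Finset.sum_filter, Finset.sum_const, nsmul_eq_mul, mul_one, Finset.sdiff_eq_filter]
  have hvK : K V A v ∈ Kn V A := mem_Kn.2 ⟨v, hv, rfl⟩
  rw [h1, sum_Kn hV h, ← Finset.add_sum_erase _ _ hvK]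
  have h2 : ∑ x ∈ K V A v, (if x ∉ (A v).F then (1 : ℤ) else 0) = 1 := by
    rw [Finset.sum_eq_single v]
    · rw [if_pos (h.notMem hv)]
    · intro x hx hxv
      rw [if_neg]
      exact not_not.2 (K_in hV h hv hx hxv)
    · intro h'
      exact absurd (self_mem h hv) h'
  have h3 : ∑ C ∈ (Kn V A).erase (K V A v), ∑ x ∈ C, (if x ∉ (A v).F then (1 : ℤ) else 0)
      ≤ ∑ C ∈ (Kn V A).erase (K V A v), M := by
    refine Finset.sum_le_sum fun C hC => ?_
    obtain ⟨z, hz, rfl⟩ := mem_Kn.1 (Finset.mem_of_mem_erase hC)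
    rw [← Finset.sum_filter, Finset.sum_const, nsmul_eq_mul, mul_one]
    exact off_le hV h hT hk (A v) hz
  rw [Finset.sum_const, nsmul_eq_mul, Finset.card_erase_of_mem hvK] at h3
  have h4 : 0 < (Kn V A).card := Finset.card_pos.2 ⟨_, hvK⟩
  have h5 : (((Kn V A).card - 1 : ℕ) : ℤ) = (Kn V A).card - 1 := by omega
  rw [h5] at h3
  linarith

end Col

end FLT99
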