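import Mathlib

namespace FLT99

/-- The real vector with the same coordinates as the integer vector `v`. -/
def toR {n : ℕ} (v : Fin n → ℤ) : Fin n → ℝ := fun i => (v i : ℝ)

/-- The part of the definition of a smooth Fano polytope used in the proofs. -/
structure PreFano {n : ℕ} (V : Finset (Fin n → ℤ)) : Prop where
  zero_mem : (0 : Fin n → ℝ) ∈ interior (convexHull ℝ (toR '' (V : Set (Fin n → ℤ))))
  smooth : ∀ φ : (Fin n → ℝ) →ₗ[ℝ] ℝ, (∀ v ∈ V, φ (toR v) ≤ 1) →
    Submodule.span ℝ (toR '' {v | v ∈ V ∧ φ (toR v) = 1}) = ⊤ →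
    LinearIndependent ℤ (Subtype.val : {v // v ∈ V ∧ φ (toR v) = 1} → (Fin n → ℤ)) ∧
      Submodule.span ℤ {v | v ∈ V ∧ φ (toR v) = 1} = ⊤

/-- The group of the lattice automorphisms `g` of `ℤ^n` with `g(V) = V`. -/
def latticeAut {n : ℕ} (V : Finset (Fin n → ℤ)) :
    Subgroup ((Fin n → ℤ) ≃ₗ[ℤ] (Fin n → ℤ)) where
  carrier := {g | ∀ v, g v ∈ V ↔ v ∈ V}
  mul_mem' := by
    intro a b ha hb v
    exact (ha (b v)).trans (hb v)
  one_mem' := by
    intro v
    exact Iff.rfl
  inv_mem' := by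
    intro a ha v
    have h := ha (a⁻¹ v)
    have h2 : a (a⁻¹ v) = v := a.apply_symm_apply v
    rw [h2] at h
    exact h.symm

/-- `v` and `w` lie in the same orbit of `latticeAut V`. -/
def SameOrbit {n : ℕ} (V : Finset (Fin n → ℤ)) (v w : Fin n → ℤ) : Prop :=
  ∃ g ∈ latticeAut V, g v = w

/-- The number `t` of orbits of `latticeAut V` on `V`. -/
noncomputable def orbitCount {n : ℕ} (V : Finset (Fin n → ℤ)) : ℕ :=
  ((fun v => {w | SameOrbit V v w}) '' (V : Set (Fin n → ℤ))).ncard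

/-- The rational vector space of the rational linear forms on `ℤ^n` invariant under
`latticeAut V` (the invariants of `M ⊗ ℚ`), as the span of the invariant forms. -/
noncomputable def invForms {n : ℕ} (V : Finset (Fin n → ℤ)) :
    Submodule ℚ ((Fin n → ℤ) →ₗ[ℤ] ℚ) :=
  Submodule.span ℚ {m | ∀ g ∈ latticeAut V, ∀ x, m (g x) = m x}

/-- Fibre-like, in the combinatorial form `t - k = 1` listed as known. -/
def FibreLike {n : ℕ} (V : Finset (Fin n → ℤ)) : Prop :=
  orbitCount V = Module.finrank ℚ (invForms V) + 1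

/-- `latticeAut V` is transitive on `V`. -/
def VertexTransitive {n : ℕ} (V : Finset (Fin n → ℤ)) : Prop :=
  ∀ v ∈ V, ∀ w ∈ V, SameOrbit V v w

/-- The anticanonical class (the class of the sum of all torus invariant prime divisors) is
divisible by `r` in the Picard group `ℤ^V / M`: for some `m` in `M` all the numbers
`1 - ⟨m, v⟩` are divisible by `r`. -/
def IndexDvd {n : ℕ} (V : Finset (Fin n → ℤ)) (r : ℕ) : Prop :=
  ∃ m : (Fin n → ℤ) →ₗ[ℤ] ℤ, ∀ v ∈ V, (r : ℤ) ∣ 1 - m v

end FLT99
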