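import Pool.Agent.FLT99.Core

namespace FLT99

open Finset

variable {n : ℕ} {V : Finset (Fin n → ℤ)}

namespace Facet

/-- The form which is `1` on the facet. -/
def u (A : Facet V) : (Fin n → ℤ) →ₗ[ℤ] ℤ := ∑ f ∈ A.F, A.co f

/-- `1 - u`. -/
def d (A : Facet V) (x : Fin n → ℤ) : ℤ := 1 - A.u x

theorem u_apply (A : Facet V) (x : Fin n → ℤ) : A.u x = ∑ f ∈ A.F, A.co f x := by
  simp [u, LinearMap.sum_apply]

theorem u_mem (A : Facet V) {x : Fin n → ℤ} (hx : x ∈ A.F) : A.u x = 1 := by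
  classical
  rw [u_apply, Finset.sum_eq_single x]
  · exact A.co_self x hx
  · intro f hf hne
    exact A.co_ne f hf x hx hne
  · intro h
    exact absurd hx h

theorem d_mem (A : Facet V) {x : Fin n → ℤ} (hx : x ∈ A.F) : A.d x = 0 := by
  rw [d, A.u_mem hx]
  ring

theorem d_pos (A : Facet V) {x : Fin n → ℤ} (hx : x ∈ V) (hxF : x ∉ A.F) : 0 < A.d x := by
  have := A.neg x hx hxF
  rw [← u_apply] at this
  rw [d]
  linarith

/-- A form is determined by its values on the facet. -/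
theorem lin_ext (A : Facet V) {R : Type*} [AddCommGroup R]
    (a b : (Fin n → ℤ) →ₗ[ℤ] R) (h : ∀ f ∈ A.F, a f = b f) : a = b := by
  ext x
  simp only [LinearMap.comp_apply]
  rw [← A.expand (LinearMap.single ℤ (fun _ => ℤ) x 1), map_sum, map_sum]
  refine Finset.sum_congr rfl fun f hf => ?_
  rw [map_smul, map_smul, h f hf]

theorem u_unique (A : Facet V) (a : (Fin n → ℤ) →ₗ[ℤ] ℤ) (h : ∀ f ∈ A.F, a f = 1) :
    a = A.u :=
  A.lin_ext a A.u fun f hf => by rw [h f hf, A.u_mem hf]

end Facet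

/-- An integer form as a real form. -/
noncomputable def toReal (a : (Fin n → ℤ) →ₗ[ℤ] ℤ) : (Fin n → ℤ) →ₗ[ℤ] ℝ where
  toFun := fun x => (a x : ℝ)
  map_add' := by
    intro x y
    simp
  map_smul' := by
    intro c x
    rw [map_smul]
    simp

theorem toReal_apply (a : (Fin n → ℤ) →ₗ[ℤ] ℤ) (x : Fin n → ℤ) : toReal a x = (a x : ℝ) := rfl

/-- Every supporting form is contained in a facet. -/
theorem exists_facet (hV : Core V) (φ : (Fin n → ℤ) →ₗ[ℤ] ℝ) (hφ : ∀ v ∈ V, φ v ≤ 1) :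
    ∃ A : Facet V, ∀ v ∈ V, φ v = 1 → v ∈ A.F := by
  classical
  induction' hm : (V.card - (V.filter (fun v => φ v = 1)).card) using Nat.strong_induction_on
    with m ih generalizing φ
  by_cases hs : ∀ ψ : (Fin n → ℤ) →ₗ[ℤ] ℝ, (∀ v ∈ V, φ v = 1 → ψ v = 0) → ψ = 0
  · obtain ⟨A, hA⟩ := hV.basis φ hφ hs
    exact ⟨A, fun v hv h1 => (hA v).2 ⟨hv, h1⟩⟩
  · push Not at hs
    obtain ⟨ψ, hψ, hne⟩ := hs
    obtain ⟨v0, hv0, hv0p⟩ := hV.pos ψ hne
    have hSne : (V.filter (fun v => 0 < ψ v)).Nonempty := ⟨v0, by simp [hv0, hv0p]⟩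
    obtain ⟨w, hw, hwmin⟩ := Finset.exists_min_image (V.filter (fun v => 0 < ψ v))
      (fun v => (1 - φ v) / ψ v) hSne
    rw [Finset.mem_filter] at hw
    obtain ⟨hwV, hwp⟩ := hw
    have hw1 : φ w ≠ 1 := by
      intro h
      have := hψ w hwV h
      linarith
    have hwlt : φ w < 1 := lt_of_le_of_ne (hφ w hwV) hw1
    set s : ℝ := (1 - φ w) / ψ w with hs
    have hspos : 0 < s := div_pos (by linarith) hwp
    let φ' : (Fin n → ℤ) →ₗ[ℤ] ℝ := φ + s • ψ
    have hφ'a : ∀ x, φ' x = φ x + s * ψ x := by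
      intro x
      simp [φ']
    have hle : ∀ v ∈ V, φ' v ≤ 1 := by
      intro v hv
      rw [hφ'a]
      by_cases hp : 0 < ψ v
      · have h1 := hwmin v (by simp [hv, hp])
        have h2 : s * ψ v ≤ (1 - φ v) / ψ v * ψ v := mul_le_mul_of_nonneg_right h1 hp.le
        rw [div_mul_cancel₀ _ hp.ne'] at h2
        linarith
      · push Not at hp
        have h1 := hφ v hv
        have h2 : s * ψ v ≤ 0 := mul_nonpos_of_nonneg_of_nonpos hspos.le hp
        linarith
    have hsub : ∀ v ∈ V, φ v = 1 → φ' v = 1 := by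
      intro v hv h1
      rw [hφ'a, hψ v hv h1, h1]
      ring
    have hw' : φ' w = 1 := by
      rw [hφ'a, hs, div_mul_cancel₀ _ hwp.ne']
      ring
    have hssub : (V.filter (fun v => φ v = 1)) ⊂ (V.filter (fun v => φ' v = 1)) := by
      rw [Finset.ssubset_iff_of_subset]
      · exact ⟨w, by simp [hwV, hw'], by simp [hw1]⟩
      · intro v hv
        rw [Finset.mem_filter] at hv ⊢
        exact ⟨hv.1, hsub v hv.1 hv.2⟩
    have hcard := Finset.card_lt_card hssub
    have hcard2 : (V.filter (fun v => φ' v = 1)).card ≤ V.card :=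
      Finset.card_le_card (Finset.filter_subset _ _)
    obtain ⟨A, hA⟩ := ih _ (by omega) φ' hle rfl
    exact ⟨A, fun v hv h1 => hA v hv (hsub v hv h1)⟩

/-- The exchange of `f` in the facet `A`. -/
theorem exchange (hV : Core V) (A : Facet V) {f : Fin n → ℤ} (hf : f ∈ A.F) :
    ∃ (B : Facet V) (w : Fin n → ℤ), w ∈ V ∧ w ∉ A.F ∧
      (∀ x, x ∈ B.F ↔ x = w ∨ (x ∈ A.F ∧ x ≠ f)) ∧ A.co f w = -1 ∧
      (∀ v ∈ V, v ∉ A.F → v ≠ w → -(A.co f v) * A.d w < A.d v) ∧
      (∀ x, B.d x = A.d x + A.d w * A.co f x) := by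
  classical
  have hne : toReal (-(A.co f)) ≠ 0 := by
    intro h
    have := LinearMap.congr_fun h f
    rw [toReal_apply, LinearMap.neg_apply, A.co_self f hf] at this
    simp at this
  obtain ⟨v0, hv0, hv0p⟩ := hV.pos _ hne
  rw [toReal_apply, LinearMap.neg_apply] at hv0p
  have hv0n : A.co f v0 < 0 := by
    have : (0 : ℤ) < -(A.co f v0) := by exact_mod_cast hv0p
    linarith
  have hnF : ∀ v, A.co f v < 0 → v ∉ A.F := by
    intro v hv hvF
    by_cases h : f = v
    · subst h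
      rw [A.co_self f hf] at hv
      linarith
    · rw [A.co_ne f hf v hvF h] at hv
      exact lt_irrefl _ hv
  let S := V.filter (fun v => A.co f v < 0)
  have hSne : S.Nonempty := ⟨v0, by simp [S, hv0, hv0n]⟩
  obtain ⟨w, hw, hwmin⟩ := Finset.exists_min_image S
    (fun v => (A.d v : ℝ) / (-(A.co f v) : ℤ)) hSne
  rw [Finset.mem_filter] at hw
  obtain ⟨hwV, hwn⟩ := hw
  have hwF : w ∉ A.F := hnF w hwn
  have hwnR : (0 : ℝ) < ((-(A.co f w) : ℤ) : ℝ) := by
    have : (0 : ℤ) < -(A.co f w) := by linarith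
    exact_mod_cast this
  have hdw : (0 : ℝ) < (A.d w : ℝ) := by exact_mod_cast A.d_pos hwV hwF
  set s : ℝ := (A.d w : ℝ) / (-(A.co f w) : ℤ) with hs
  have hspos : 0 < s := div_pos hdw hwnR
  let φ : (Fin n → ℤ) →ₗ[ℤ] ℝ := toReal A.u - s • toReal (A.co f)
  have hφ : ∀ x, φ x = (A.u x : ℝ) - s * (A.co f x : ℝ) := by
    intro x
    simp [φ, toReal_apply]
  have hφd : ∀ x, φ x = 1 - ((A.d x : ℝ) + s * (A.co f x : ℝ)) := by
    intro x
    rw [hφ]
    simp only [Facet.d]
    push_cast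
    ring
  have hle : ∀ v ∈ V, φ v ≤ 1 := by
    intro v hv
    rw [hφd]
    by_cases hn : A.co f v < 0
    · have h1 := hwmin v (by simp [S, hv, hn])
      have hp : (0 : ℝ) < ((-(A.co f v) : ℤ) : ℝ) := by
        have : (0 : ℤ) < -(A.co f v) := by linarith
        exact_mod_cast this
      have h2 := mul_le_mul_of_nonneg_right h1 hp.le
      rw [div_mul_cancel₀ _ hp.ne'] at h2
      push_cast at h2
      have h3 : s * (A.co f v : ℝ) = -(s * -(A.co f v : ℝ)) := by ring
      rw [h3]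
      linarith
    · push Not at hn
      have h1 : (0 : ℝ) ≤ (A.d v : ℝ) := by
        by_cases hvF : v ∈ A.F
        · rw [A.d_mem hvF]
          simp
        · exact_mod_cast (A.d_pos hv hvF).le
      have h2 : (0 : ℝ) ≤ s * (A.co f v : ℝ) := mul_nonneg hspos.le (by exact_mod_cast hn)
      linarith
  have hw1 : φ w = 1 := by
    rw [hφd, hs]
    push_cast
    push_cast at hwnR
    have : (A.co f w : ℝ) ≠ 0 := by
      intro h
      rw [h] at hwnR
      simp at hwnR
    field_simp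
    ring
  have hF1 : ∀ x ∈ A.F, x ≠ f → φ x = 1 := by
    intro x hx hxf
    rw [hφ, A.u_mem hx, A.co_ne f hf x hx (Ne.symm hxf)]
    simp
  obtain ⟨B, hB⟩ := hV.basis φ hle (by
    intro ψ hψ
    have hcoef : ψ f = 0 := by
      have h1 := hψ w hwV hw1
      rw [← A.expand w, map_sum, Finset.sum_eq_single f] at h1
      · rw [map_smul, zsmul_eq_mul] at h1
        rcases mul_eq_zero.1 h1 with h | h
        · exfalso
          have : A.co f w = 0 := by exact_mod_cast h
          linarith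
        · exact h
      · intro g hg hgf
        rw [map_smul, hψ g (A.sub hg) (hF1 g hg hgf), smul_zero]
      · intro h
        exact absurd hf h
    refine A.lin_ext ψ 0 fun g hg => ?_
    by_cases hgf : g = f
    · subst hgf
      exact hcoef
    · exact hψ g (A.sub hg) (hF1 g hg hgf))
  have hsub : insert w (A.F.erase f) ⊆ B.F := by
    intro x hx
    rw [Finset.mem_insert, Finset.mem_erase] at hx
    rcases hx with rfl | ⟨h1, h2⟩
    · exact (hB _).2 ⟨hwV, hw1⟩
    · exact (hB _).2 ⟨A.sub h2, hF1 x h2 h1⟩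
  have hcard : (insert w (A.F.erase f)).card = B.F.card := by
    rw [Finset.card_insert_of_notMem, Finset.card_erase_of_mem hf, A.card, B.card]
    · have : 0 < A.F.card := Finset.card_pos.2 ⟨f, hf⟩
      rw [A.card] at this
      omega
    · intro h
      exact hwF (Finset.mem_of_mem_erase h)
  have hBF : insert w (A.F.erase f) = B.F := Finset.eq_of_subset_of_card_le hsub hcard.ge
  have hBm : ∀ x, x ∈ B.F ↔ x = w ∨ (x ∈ A.F ∧ x ≠ f) := by
    intro x
    rw [← hBF, Finset.mem_insert, Finset.mem_erase]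
    tauto
  have hcow : A.co f w = -1 := by
    have h1 := congrArg (A.co f) (B.expand f)
    rw [map_sum, A.co_self f hf, ← hBF, Finset.sum_insert] at h1
    · rw [Finset.sum_eq_zero, add_zero, map_smul, smul_eq_mul] at h1
      · have h2 : A.co f w ∣ 1 := ⟨B.co w f, by rw [← h1]; ring⟩
        rcases Int.isUnit_iff.1 (isUnit_of_dvd_one h2) with h | h
        · linarith
        · exact h
      · intro x hx
        rw [Finset.mem_erase] at hx
        rw [map_smul, A.co_ne f hf x hx.2 (Ne.symm hx.1), smul_zero]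
    · intro h
      exact hwF (Finset.mem_of_mem_erase h)
  have hsd : s = (A.d w : ℝ) := by
    rw [hs, hcow]
    simp
  refine ⟨B, w, hwV, hwF, hBm, hcow, ?_, ?_⟩
  · intro v hv hvF hvw
    have h1 : v ∉ B.F := by
      rw [hBm]
      push Not
      exact ⟨hvw, fun h => absurd h hvF⟩
    have h2 : φ v ≠ 1 := fun h => h1 ((hB v).2 ⟨hv, h⟩)
    have h3 : φ v < 1 := lt_of_le_of_ne (hle v hv) h2
    rw [hφd, hsd] at h3
    have h4 : (0 : ℝ) < (A.d v : ℝ) + (A.d w : ℝ) * (A.co f v : ℝ) := by linarith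
    have h5 : (0 : ℤ) < A.d v + A.d w * A.co f v := by exact_mod_cast h4
    nlinarith
  · intro x
    have h1 : A.u - A.d w • A.co f = B.u := by
      apply B.u_unique
      intro g hg
      rw [LinearMap.sub_apply, LinearMap.smul_apply, smul_eq_mul]
      rcases (hBm g).1 hg with rfl | ⟨h1, h2⟩
      · rw [hcow, Facet.d]
        ring
      · rw [A.u_mem h1, A.co_ne f hf g h1 (Ne.symm h2)]
        ring
    have h2 : B.u x = A.u x - A.d w * A.co f x := by
      rw [← h1, LinearMap.sub_apply, LinearMap.smul_apply, smul_eq_mul]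
    have h3 : B.d x = 1 - B.u x := rfl
    have h4 : A.d x = 1 - A.u x := rfl
    rw [h3, h2, h4]
    ring

end FLT99
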