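import Pool.Agent.FLT99.Parity

namespace FLT99

open Finset

variable {n : ℕ} {V : Finset (Fin n → ℤ)}

namespace Col

variable {k : ℤ} {A : (Fin n → ℤ) → Facet V}

theorem K_trans (hV : Core V) (hF : FibreLike V) (h : Col V k A) {v w : Fin n → ℤ}
    (hv : v ∈ V) (hw : w ∈ V) : ∃ g ∈ latticeAut V, (K V A v).image g = K V A w := by
  obtain ⟨x, hx, g, hg, hgx⟩ := K_meets hV hF h hw hv
  refine ⟨g, hg, ?_⟩
  ext y
  rw [← K_eq hV h hw hx, ← hgx, Finset.mem_image]
  constructor
  · rintro ⟨z, hz, rfl⟩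
    exact (K_map hV h hv hg).2 hz
  · intro hy
    refine ⟨g⁻¹ y, ?_, g.apply_symm_apply y⟩
    rw [← K_map hV h hv hg]
    have : g (g⁻¹ y) = y := g.apply_symm_apply y
    rw [this]
    exact hy

theorem K_image (hV : Core V) (h : Col V k A) {v : Fin n → ℤ} (hv : v ∈ V)
    {g : (Fin n → ℤ) ≃ₗ[ℤ] (Fin n → ℤ)} (hg : g ∈ latticeAut V) :
    (K V A v).image g = K V A (g v) := by
  ext y
  rw [Finset.mem_image]
  constructor
  · rintro ⟨z, hz, rfl⟩
    exact (K_map hV h hv hg).2 hz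
  · intro hy
    refine ⟨g⁻¹ y, ?_, g.apply_symm_apply y⟩
    rw [← K_map hV h hv hg]
    have : g (g⁻¹ y) = y := g.apply_symm_apply y
    rw [this]
    exact hy

theorem orbit_two (hVT : ¬ VertexTransitive V) : 2 ≤ orbitCount V := by
  classical
  unfold VertexTransitive at hVT
  push Not at hVT
  obtain ⟨a, ha, b, hb, hab⟩ := hVT
  unfold orbitCount
  set orb : (Fin n → ℤ) → Set (Fin n → ℤ) := fun v => {w | SameOrbit V v w} with horb
  have hfin : (orb '' (V : Set (Fin n → ℤ))).Finite := V.finite_toSet.image _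
  have hne : orb a ≠ orb b := by
    intro he
    have : b ∈ orb b := SameOrbit.refl V b
    rw [← he] at this
    exact hab this
  have hsub : ({orb a, orb b} : Set (Set (Fin n → ℤ))) ⊆ orb '' (V : Set (Fin n → ℤ)) := by
    intro O hO
    rcases hO with rfl | hO
    · exact ⟨a, ha, rfl⟩
    · rw [Set.mem_singleton_iff] at hO
      rw [hO]
      exact ⟨b, hb, rfl⟩
  have h1 := Set.ncard_le_ncard hsub hfin
  rwa [Set.ncard_pair hne] at h1

theorem bounds (hV : Core V) (hF : FibreLike V) (h : Col V k A) {T : ℤ} (hT : Gen V T)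
    (hVT : ¬ VertexTransitive V) :
    11 ≤ n ∧ n + 6 ≤ V.card ∧ 3 ≤ (Kn V A).card ∧ 3 * T ≤ k := by
  obtain ⟨M, hM0, hk⟩ := exists_M h hT (nonempty_of_fibreLike hF)
  have hM := M_ge hV hF h hT hk hM0 hVT
  have hc := three hV hF h hT hk hM
  obtain ⟨v, hv⟩ := nonempty_of_fibreLike hF
  have h1 := off_ge hV hF h hT hk hM hVT (A v)
  have h2 := sdiff_card (A v)
  have h3 := off_total hV h hT hk hv
  have h4 := V_card hV h
  have hT2 : 2 ≤ T := by
    obtain ⟨r, hr, hrT⟩ := hT.ex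
    have h5 := orbitCount_le hV hF hr (by rw [hrT]; exact hT.pos)
    rw [hrT] at h5
    have h6 := orbit_two hVT
    have : (2 : ℤ) ≤ orbitCount V := by exact_mod_cast h6
    linarith
  refine ⟨?_, ?_, hc, ?_⟩
  · have hc' : (3 : ℤ) ≤ (Kn V A).card := by exact_mod_cast hc
    have h5 : (11 : ℤ) ≤ n := by
      rw [h2, h4, hk]
      have e1 : (M : ℤ) * 2 ≤ M * T := by nlinarith
      have e2 : ((Kn V A).card : ℤ) * (M * 2) ≤ (Kn V A).card * (M * T) :=
        mul_le_mul_of_nonneg_left e1 (by linarith)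
      have e3 : 9 ≤ ((Kn V A).card : ℤ) * M := by nlinarith
      linarith
    exact_mod_cast h5
  · have h5 := Finset.card_sdiff_add_card_eq_card (A v).sub
    rw [(A v).card] at h5
    omega
  · rw [hk]
    have := hT.pos
    nlinarith

end Col

end FLT99
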