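import Pool.Agent.FLT99.Exch

namespace FLT99

open Finset

variable {n : ℕ} {V : Finset (Fin n → ℤ)}

/-- The submodule of the invariant forms. -/
def invF {n : ℕ} (V : Finset (Fin n → ℤ)) : Submodule ℚ ((Fin n → ℤ) →ₗ[ℤ] ℚ) where
  carrier := {m | ∀ g ∈ latticeAut V, ∀ x, m (g x) = m x}
  add_mem' := by
    intro a b ha hb g hg x
    rw [LinearMap.add_apply, LinearMap.add_apply, ha g hg x, hb g hg x]
  zero_mem' := by
    intro g hg x
    rfl
  smul_mem' := by
    intro c a ha g hg x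
    rw [LinearMap.smul_apply, LinearMap.smul_apply, ha g hg x]

theorem invForms_eq (V : Finset (Fin n → ℤ)) : invForms V = invF V :=
  le_antisymm (Submodule.span_le.2 fun _ hm => hm) (fun _ hm => Submodule.subset_span hm)

theorem SameOrbit.refl (V : Finset (Fin n → ℤ)) (v : Fin n → ℤ) : SameOrbit V v v :=
  ⟨1, (latticeAut V).one_mem, rfl⟩

theorem SameOrbit.symm {v w : Fin n → ℤ} (h : SameOrbit V v w) : SameOrbit V w v := by
  obtain ⟨g, hg, rfl⟩ := h
  exact ⟨g⁻¹, (latticeAut V).inv_mem hg, g.symm_apply_apply v⟩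

theorem SameOrbit.trans {v w x : Fin n → ℤ} (h : SameOrbit V v w) (h' : SameOrbit V w x) :
    SameOrbit V v x := by
  obtain ⟨g, hg, rfl⟩ := h
  obtain ⟨g', hg', rfl⟩ := h'
  exact ⟨g' * g, (latticeAut V).mul_mem hg' hg, rfl⟩

theorem SameOrbit.mem {v w : Fin n → ℤ} (h : SameOrbit V v w) (hv : v ∈ V) : w ∈ V := by
  obtain ⟨g, hg, rfl⟩ := h
  exact (hg v).2 hv

/-- There is a facet. -/
theorem exists_facet' (hV : Core V) : Nonempty (Facet V) := by
  obtain ⟨A, _⟩ := exists_facet hV 0 (fun v _ => by simp)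
  exact ⟨A⟩

theorem finite_aut (hV : Core V) : Finite (latticeAut V) := by
  obtain ⟨A⟩ := exists_facet' hV
  let f : latticeAut V → (V → V) := fun g v => ⟨g.1 v.1, (g.2 v.1).2 v.2⟩
  apply Finite.of_injective f
  intro g h hgh
  apply Subtype.ext
  apply LinearEquiv.toLinearMap_injective
  apply A.lin_ext
  intro x hx
  have := congrFun hgh ⟨x, A.sub hx⟩
  exact congrArg Subtype.val this

/-- real relation -/
def IsRelR (V : Finset (Fin n → ℤ)) (r : (Fin n → ℤ) → ℝ) : Prop :=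
  ∀ ψ : (Fin n → ℤ) →ₗ[ℤ] ℝ, ∑ x ∈ V, r x * ψ x = 0

/-- invariance -/
def IsInv (V : Finset (Fin n → ℤ)) {R : Type*} (r : (Fin n → ℤ) → R) : Prop :=
  ∀ g ∈ latticeAut V, ∀ x, r (g x) = r x

theorem IsInv.eq {R : Type*} {r : (Fin n → ℤ) → R} (h : IsInv V r) {v w : Fin n → ℤ}
    (hvw : SameOrbit V v w) : r w = r v := by
  obtain ⟨g, hg, rfl⟩ := hvw
  exact h g hg v

theorem sum_aut {R : Type*} [AddCommMonoid R] {g : (Fin n → ℤ) ≃ₗ[ℤ] (Fin n → ℤ)}
    (hg : g ∈ latticeAut V) (f : (Fin n → ℤ) → R) : ∑ x ∈ V, f (g x) = ∑ x ∈ V, f x := by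
  refine Finset.sum_equiv g.toEquiv ?_ ?_
  · intro x
    exact (hg x).symm
  · intro x _
    rfl

/-- Average over the group. -/
noncomputable def avg (V : Finset (Fin n → ℤ)) [Fintype (latticeAut V)]
    (r : (Fin n → ℤ) → ℝ) (x : Fin n → ℤ) : ℝ := ∑ g : latticeAut V, r (g.1 x)

theorem avg_inv [Fintype (latticeAut V)] (r : (Fin n → ℤ) → ℝ) : IsInv V (avg V r) := by
  intro h hh x
  unfold avg
  refine Fintype.sum_equiv (Equiv.mulRight ⟨h, hh⟩) _ _ ?_
  intro g
  rfl

theorem avg_rel [Fintype (latticeAut V)] {r : (Fin n → ℤ) → ℝ} (hr : IsRelR V r) :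
    IsRelR V (avg V r) := by
  intro ψ
  unfold avg
  simp only [Finset.sum_mul]
  rw [Finset.sum_comm]
  refine Finset.sum_eq_zero fun g _ => ?_
  have h := sum_aut g.2 (fun x => r x * (ψ.comp g.1.symm.toLinearMap) x)
  rw [hr] at h
  rw [← h]
  refine Finset.sum_congr rfl fun x _ => ?_
  simp

theorem exists_c (hV : Core V) : ∃ c : (Fin n → ℤ) → ℝ, (∀ v ∈ V, 0 < c v) ∧ IsRelR V c ∧
    IsInv V c := by
  have := finite_aut hV
  have := Fintype.ofFinite (latticeAut V)
  obtain ⟨c, hc, hr⟩ := hV.rel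
  refine ⟨avg V c, ?_, avg_rel hr, avg_inv c⟩
  intro v hv
  unfold avg
  refine Finset.sum_pos (fun g _ => hc _ ((g.2 v).2 hv)) ⟨1, Finset.mem_univ _⟩

/-- rational form as a real form -/
noncomputable def castQ (m : (Fin n → ℤ) →ₗ[ℤ] ℚ) : (Fin n → ℤ) →ₗ[ℤ] ℝ where
  toFun := fun x => (m x : ℝ)
  map_add' := by
    intro x y
    simp
  map_smul' := by
    intro c x
    rw [map_smul]
    simp

theorem castQ_apply (m : (Fin n → ℤ) →ₗ[ℤ] ℚ) (x : Fin n → ℤ) : castQ m x = (m x : ℝ) := rfl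

theorem eq_zero_of_V (hV : Core V) {m : (Fin n → ℤ) →ₗ[ℤ] ℚ} (h : ∀ v ∈ V, m v = 0) : m = 0 := by
  obtain ⟨A⟩ := exists_facet' hV
  exact A.lin_ext m 0 fun f hf => h f (A.sub hf)

/-- Prescribed values outside one orbit. -/
theorem exists_form (hV : Core V) (hF : FibreLike V) {w : Fin n → ℤ} (hw : w ∈ V)
    (h : (Fin n → ℤ) → ℚ) (hh : IsInv V h) :
    ∃ m ∈ invF V, ∀ x ∈ V, ¬ SameOrbit V w x → m x = h x := by
  classical
  unfold FibreLike at hF
  rw [invForms_eq] at hF
  obtain ⟨c, hc, hcr, hci⟩ := exists_c hV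
  set orb : (Fin n → ℤ) → Set (Fin n → ℤ) := fun v => {x | SameOrbit V v x} with horb
  set S : Set (Set (Fin n → ℤ)) := orb '' (V : Set (Fin n → ℤ)) with hS
  have hSfin : S.Finite := V.finite_toSet.image _
  have hwS : orb w ∈ S := ⟨w, hw, rfl⟩
  have hcount : orbitCount V = S.ncard := rfl
  let Ω := ↥(S \ {orb w})
  have hΩfin : (S \ {orb w}).Finite := hSfin.subset Set.sdiff_subset
  have : Finite Ω := hΩfin
  have : Fintype Ω := Fintype.ofFinite _
  have hcard : Fintype.card Ω = Module.finrank ℚ (invF V) := by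
    have h1 : Fintype.card Ω = (S \ {orb w}).ncard := by
      rw [← Nat.card_eq_fintype_card]
      rfl
    rw [h1, Set.ncard_sdiff_singleton_of_mem hwS, ← hcount, hF]
    rfl
  have hrep : ∀ O : Ω, ∃ v ∈ V, O.1 = orb v ∧ ¬ SameOrbit V w v := by
    intro O
    obtain ⟨⟨v, hv, hvO⟩, hne⟩ := O.2
    refine ⟨v, hv, hvO.symm, ?_⟩
    intro hwv
    apply hne
    rw [Set.mem_singleton_iff, ← hvO]
    ext x
    exact ⟨fun hx => hwv.trans hx, fun hx => hwv.symm.trans hx⟩
  choose rep hrepV hrepO hrepw using hrep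
  let E : invF V →ₗ[ℚ] (Ω → ℚ) :=
    { toFun := fun m O => m.1 (rep O)
      map_add' := by
        intro a b
        rfl
      map_smul' := by
        intro a b
        rfl }
  have hval : ∀ m ∈ invF V, ∀ x ∈ V, ∀ (hx : ¬ SameOrbit V w x),
      ∃ O : Ω, m x = m (rep O) ∧ SameOrbit V (rep O) x := by
    intro m hm x hx hwx
    have hO : orb x ∈ S \ {orb w} := by
      refine ⟨⟨x, hx, rfl⟩, ?_⟩
      intro he
      rw [Set.mem_singleton_iff] at he
      apply hwx
      have : x ∈ orb x := SameOrbit.refl V x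
      rw [he] at this
      exact this
    refine ⟨⟨orb x, hO⟩, ?_⟩
    have h1 := hrepO ⟨orb x, hO⟩
    have h2 : SameOrbit V (rep ⟨orb x, hO⟩) x := by
      have : x ∈ orb x := SameOrbit.refl V x
      have h3 : x ∈ (⟨orb x, hO⟩ : Ω).1 := this
      rw [h1] at h3
      exact h3
    refine ⟨?_, h2⟩
    obtain ⟨g, hg, hgx⟩ := h2
    rw [← hm g hg (rep ⟨orb x, hO⟩), hgx]
  have hinj : Function.Injective E := by
    rw [injective_iff_map_eq_zero]
    rintro ⟨m, hm⟩ hE
    apply Subtype.ext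
    show m = 0
    have hzero : ∀ x ∈ V, ¬ SameOrbit V w x → m x = 0 := by
      intro x hx hwx
      obtain ⟨O, hO, _⟩ := hval m hm x hx hwx
      rw [hO]
      exact congrFun hE O
    have hw0 : m w = 0 := by
      have h1 := hcr (castQ m)
      have h2 : ∑ x ∈ V, c x * castQ m x
          = (∑ x ∈ V.filter (fun x => SameOrbit V w x), c x) * (m w : ℝ) := by
        rw [Finset.sum_mul, Finset.sum_filter]
        refine Finset.sum_congr rfl fun x hx => ?_
        rw [castQ_apply]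
        by_cases hwx : SameOrbit V w x
        · rw [if_pos hwx]
          obtain ⟨g, hg, hgx⟩ := hwx
          rw [← hgx, hm g hg w]
        · rw [if_neg hwx, hzero x hx hwx]
          simp
      rw [h2] at h1
      have h3 : 0 < ∑ x ∈ V.filter (fun x => SameOrbit V w x), c x := by
        refine Finset.sum_pos (fun x hx => hc x (Finset.mem_filter.1 hx).1) ⟨w, ?_⟩
        rw [Finset.mem_filter]
        exact ⟨hw, SameOrbit.refl V w⟩
      rcases mul_eq_zero.1 h1 with h4 | h4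
      · linarith
      · exact_mod_cast h4
    apply eq_zero_of_V hV
    intro x hx
    by_cases hwx : SameOrbit V w x
    · obtain ⟨g, hg, hgx⟩ := hwx
      rw [← hgx, hm g hg w, hw0]
    · exact hzero x hx hwx
  have : FiniteDimensional ℚ (invF V) := FiniteDimensional.of_injective E hinj
  have hfr : Module.finrank ℚ (invF V) = Module.finrank ℚ (Ω → ℚ) := by
    rw [Module.finrank_fintype_fun_eq_card, hcard]
  have hsurj : Function.Surjective E :=
    (LinearMap.injective_iff_surjective_of_finrank_eq_finrank hfr).1 hinj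
  obtain ⟨⟨m, hm⟩, hmE⟩ := hsurj (fun O => h (rep O))
  refine ⟨m, hm, ?_⟩
  intro x hx hwx
  obtain ⟨O, hO, hOx⟩ := hval m hm x hx hwx
  rw [hO, hh.eq hOx]
  exact congrFun hmE O

end FLT99
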