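import Pool.Agent.FLT99.Rel

namespace FLT99

open Finset

variable {n : ℕ} {V : Finset (Fin n → ℤ)}

theorem nonempty_of_fibreLike (hF : FibreLike V) : V.Nonempty := by
  rw [Finset.nonempty_iff_ne_empty]
  rintro rfl
  unfold FibreLike orbitCount at hF
  simp at hF

theorem d_le_card (hV : Core V) (hF : FibreLike V) (A : Facet V) {v : Fin n → ℤ} (hv : v ∈ V) :
    A.d v ≤ V.card := by
  have h := deg_eq A (one_isRel hV hF)
  unfold deg at h
  simp only [one_mul, Finset.sum_const, nsmul_eq_mul, mul_one] at h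
  rw [h]
  exact Finset.single_le_sum (fun x hx => A.d_nonneg hx) hv

theorem co_nonpos (hV : Core V) (B : Facet V) {v : Fin n → ℤ}
    (hmax : ∀ B' : Facet V, B'.d v ≤ B.d v) {f : Fin n → ℤ} (hf : f ∈ B.F) : B.co f v ≤ 0 := by
  obtain ⟨B', w, hw, hwF, _, _, _, hd⟩ := exchange hV B hf
  have h1 := hmax B'
  rw [hd] at h1
  have h2 := B.d_pos hw hwF
  by_contra hcon
  push Not at hcon
  have : 0 < B.d w * B.co f v := mul_pos h2 hcon
  linarith

theorem relOf_nonneg (hV : Core V) (B : Facet V) {v : Fin n → ℤ} (hvB : v ∉ B.F)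
    (hmax : ∀ B' : Facet V, B'.d v ≤ B.d v) (x : Fin n → ℤ) : 0 ≤ relOf B v x := by
  by_cases hx : x ∈ B.F
  · rw [relOf_in B hx hvB]
    have := co_nonpos hV B hmax hx
    linarith
  · by_cases hxv : x = v
    · subst hxv
      rw [relOf_self B hvB]
      norm_num
    · rw [relOf_out B hx hxv]

theorem exists_local (hV : Core V) (hF : FibreLike V) {w : Fin n → ℤ} (hw : w ∈ V) :
    ∃ B : Facet V, w ∉ B.F ∧ ∀ B' : Facet V, B'.d w ≤ B.d w := by
  obtain ⟨A⟩ := exists_facet' hV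
  have hb : ∃ b : ℤ, ∀ z : ℤ, (∃ B : Facet V, B.d w = z) → z ≤ b := by
    refine ⟨V.card, ?_⟩
    rintro z ⟨B, rfl⟩
    exact d_le_card hV hF B hw
  obtain ⟨m, ⟨B, hB⟩, hmax⟩ := Int.exists_greatest_of_bdd hb ⟨A.d w, A, rfl⟩
  refine ⟨B, ?_, fun B' => by rw [hB]; exact hmax _ ⟨B', rfl⟩⟩
  intro hwB
  obtain ⟨B', y, hy, hyF, hB', _, _, _⟩ := exchange hV B hwB
  have h1 : w ∉ B'.F := by
    rw [hB']
    rintro (h | h)
    · rw [h] at hwB
      exact hyF hwB
    · exact h.2 rfl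
  have h2 := B'.d_pos hw h1
  have h3 := hmax _ ⟨B', rfl⟩
  rw [← hB, B.d_mem hwB] at h3
  linarith

theorem col {k : ℤ} (hk0 : 0 < k) (hk : ∀ B : Facet V, ∀ v ∈ V, B.d v ≤ k) (A : Facet V)
    {v : Fin n → ℤ} (hv : v ∈ V) (hA : A.d v = k) (B : Facet V) {w : Fin n → ℤ} (hw : w ∈ V)
    (hwB : w ∉ B.F) (hnn : ∀ x, 0 ≤ relOf B w x) (h1 : 1 ≤ relOf B w v) :
    B.d w = k ∧ ∀ x ∈ V, relOf B w x = relOf A v x := by
  classical
  have hr := relOf_isRel B hw
  have e1 := relOf_deg B hw hwB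
  rw [deg_eq A hr, ← Finset.add_sum_erase V _ hv, hA] at e1
  have hterm : ∀ x ∈ V.erase v, 0 ≤ relOf B w x * A.d x := fun x hx =>
    mul_nonneg (hnn x) (A.d_nonneg (Finset.mem_of_mem_erase hx))
  have e2 := Finset.sum_nonneg hterm
  have e3 := hk B w hw
  have e4 : k ≤ relOf B w v * k := by nlinarith
  have e5 : B.d w = k := by linarith
  have e6 : relOf B w v * k = k := by linarith
  have e7 : ∑ x ∈ V.erase v, relOf B w x * A.d x = 0 := by linarith
  have e8 : relOf B w v = 1 := by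
    have : (relOf B w v - 1) * k = 0 := by linarith
    rcases mul_eq_zero.1 this with h | h
    · linarith
    · exact absurd h hk0.ne'
  have e9 := (Finset.sum_eq_zero_iff_of_nonneg hterm).1 e7
  have hvA : v ∉ A.F := A.notMem_of_d (by rw [hA]; exact hk0.ne')
  refine ⟨e5, fun x hx => rel_ext A hr (relOf_isRel A hv) ?_ hx⟩
  intro y hy hyA
  by_cases hyv : y = v
  · subst hyv
    rw [e8, relOf_self A hyA]
  · rw [relOf_out A hyA hyv]
    have h := e9 y (Finset.mem_erase.2 ⟨hyv, hy⟩)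
    rcases mul_eq_zero.1 h with h | h
    · exact h
    · exact absurd h (A.d_pos hy hyA).ne'

/-- The colour data: for every vertex a facet with the largest possible `d`. -/
structure Col (V : Finset (Fin n → ℤ)) (k : ℤ) (A : (Fin n → ℤ) → Facet V) : Prop where
  kpos : 0 < k
  le : ∀ B : Facet V, ∀ v ∈ V, B.d v ≤ k
  eq : ∀ v ∈ V, (A v).d v = k

theorem pos_in_orbit (hV : Core V) (hF : FibreLike V) {r : (Fin n → ℤ) → ℤ} (hr : IsRel V r)
    (hd : 0 < deg V r) {v : Fin n → ℤ} (hv : v ∈ V) : 0 < ∑ x ∈ Orb V v, r x := by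
  have h := star hV hF hr hv
  have h1 : (0 : ℤ) < V.card := by
    have : 0 < V.card := Finset.card_pos.2 ⟨v, hv⟩
    exact_mod_cast this
  have h2 : (0 : ℤ) < (Orb V v).card := by
    have : 0 < (Orb V v).card := Finset.card_pos.2 ⟨v, self_mem_Orb hv⟩
    exact_mod_cast this
  have h3 : 0 < (V.card : ℤ) * ∑ x ∈ Orb V v, r x := by
    rw [h]
    exact mul_pos h2 hd
  exact pos_of_mul_pos_right h3 h1.le

theorem exists_pos_in_orbit (hV : Core V) (hF : FibreLike V) {r : (Fin n → ℤ) → ℤ}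
    (hr : IsRel V r) (hd : 0 < deg V r) {v : Fin n → ℤ} (hv : v ∈ V) :
    ∃ x ∈ V, SameOrbit V v x ∧ 1 ≤ r x := by
  have h := pos_in_orbit hV hF hr hd hv
  by_contra hcon
  push Not at hcon
  have : ∑ x ∈ Orb V v, r x ≤ 0 := by
    refine Finset.sum_nonpos fun x hx => ?_
    rw [mem_Orb] at hx
    have := hcon x hx.1 hx.2
    linarith
  linarith

theorem exists_col (hV : Core V) (hF : FibreLike V) : ∃ k A, Col V k A := by
  classical
  obtain ⟨v0, hv0⟩ := nonempty_of_fibreLike hF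
  have hb : ∃ b : ℤ, ∀ z : ℤ, (∃ B : Facet V, ∃ v ∈ V, B.d v = z) → z ≤ b := by
    refine ⟨V.card, ?_⟩
    rintro z ⟨B, v, hv, rfl⟩
    exact d_le_card hV hF B hv
  obtain ⟨A0⟩ := exists_facet' hV
  obtain ⟨k, ⟨A, v, hv, hA⟩, hmax⟩ := Int.exists_greatest_of_bdd hb ⟨A0.d v0, A0, v0, hv0, rfl⟩
  have hle : ∀ B : Facet V, ∀ v ∈ V, B.d v ≤ k := fun B v hv => hmax _ ⟨B, v, hv, rfl⟩
  have hk0 : 0 < k := by
    obtain ⟨B, hB, _⟩ := exists_local hV hF hv
    have := B.d_pos hv hB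
    have h2 := hle B v hv
    linarith
  have hall : ∀ w ∈ V, ∃ B : Facet V, B.d w = k := by
    intro w hw
    obtain ⟨B, hwB, hB⟩ := exists_local hV hF hw
    have hnn := relOf_nonneg hV B hwB hB
    have hdeg : 0 < deg V (relOf B w) := by
      rw [relOf_deg B hw hwB]
      exact B.d_pos hw hwB
    obtain ⟨x, hx, ⟨g, hg, hgx⟩, hx1⟩ :=
      exists_pos_in_orbit hV hF (relOf_isRel B hw) hdeg hv
    have hAx : (A.map g hg).d x = k := by
      rw [← hgx, A.map_d hg, hA]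
    exact ⟨B, (col hk0 hle (A.map g hg) hx hAx B hw hwB hnn hx1).1⟩
  have hNE : Nonempty (Facet V) := exists_facet' hV
  choose! F hF' using hall
  exact ⟨k, F, hk0, hle, hF'⟩

namespace Col

variable {k : ℤ} {A : (Fin n → ℤ) → Facet V}

theorem notMem (h : Col V k A) {v : Fin n → ℤ} (hv : v ∈ V) : v ∉ (A v).F :=
  (A v).notMem_of_d (by rw [h.eq v hv]; exact h.kpos.ne')

theorem D_nonneg (hV : Core V) (h : Col V k A) {v : Fin n → ℤ} (hv : v ∈ V) (x : Fin n → ℤ) :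
    0 ≤ relOf (A v) v x :=
  relOf_nonneg hV (A v) (h.notMem hv) (fun B' => by rw [h.eq v hv]; exact h.le B' v hv) x

theorem D_eq (hV : Core V) (h : Col V k A) {v w : Fin n → ℤ} (hv : v ∈ V) (hw : w ∈ V)
    (h1 : 1 ≤ relOf (A w) w v) {x : Fin n → ℤ} (hx : x ∈ V) :
    relOf (A w) w x = relOf (A v) v x :=
  (col h.kpos h.le (A v) hv (h.eq v hv) (A w) hw (h.notMem hw) (D_nonneg hV h hw) h1).2 x hx

/-- A facet with the largest `d` gives the same relation. -/
theorem D_uniq (hV : Core V) (h : Col V k A) {v : Fin n → ℤ} (hv : v ∈ V) (B : Facet V)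
    (hB : B.d v = k) {x : Fin n → ℤ} (hx : x ∈ V) : relOf B v x = relOf (A v) v x := by
  have hvB : v ∉ B.F := B.notMem_of_d (by rw [hB]; exact h.kpos.ne')
  refine (col h.kpos h.le (A v) hv (h.eq v hv) B hv hvB ?_ ?_).2 x hx
  · exact relOf_nonneg hV B hvB (fun B' => by rw [hB]; exact h.le B' v hv)
  · rw [relOf_self B hvB]

end Col

/-- The collection of a vertex. -/
noncomputable def K (V : Finset (Fin n → ℤ)) (A : (Fin n → ℤ) → Facet V) (v : Fin n → ℤ) :
    Finset (Fin n → ℤ) := V.filter (fun x => 1 ≤ relOf (A v) v x)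

namespace Col

variable {k : ℤ} {A : (Fin n → ℤ) → Facet V}

theorem mem_K {v x : Fin n → ℤ} : x ∈ K V A v ↔ x ∈ V ∧ 1 ≤ relOf (A v) v x := by
  simp [K]

theorem K_sub (v : Fin n → ℤ) : K V A v ⊆ V := Finset.filter_subset _ _

theorem self_mem (h : Col V k A) {v : Fin n → ℤ} (hv : v ∈ V) : v ∈ K V A v := by
  rw [mem_K]
  exact ⟨hv, by rw [relOf_self _ (h.notMem hv)]⟩

theorem K_eq (hV : Core V) (h : Col V k A) {v w : Fin n → ℤ} (hw : w ∈ V) (hv : v ∈ K V A w) :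
    K V A v = K V A w := by
  have h1 := mem_K.1 hv
  ext x
  rw [mem_K, mem_K]
  constructor
  · rintro ⟨hx, h2⟩
    exact ⟨hx, by rw [D_eq hV h h1.1 hw h1.2 hx]; exact h2⟩
  · rintro ⟨hx, h2⟩
    exact ⟨hx, by rw [← D_eq hV h h1.1 hw h1.2 hx]; exact h2⟩

theorem D_one (hV : Core V) (h : Col V k A) {v x : Fin n → ℤ} (hv : v ∈ V) (hx : x ∈ K V A v) :
    relOf (A v) v x = 1 := by
  have h1 := mem_K.1 hx
  rw [D_eq hV h h1.1 hv h1.2 h1.1, relOf_self _ (h.notMem h1.1)]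

open Classical in
theorem D_val (hV : Core V) (h : Col V k A) {v x : Fin n → ℤ} (hv : v ∈ V) (hx : x ∈ V) :
    relOf (A v) v x = if x ∈ K V A v then 1 else 0 := by
  split_ifs with hxK
  · exact D_one hV h hv hxK
  · have h1 : ¬ 1 ≤ relOf (A v) v x := fun h2 => hxK (mem_K.2 ⟨hx, h2⟩)
    have h2 := D_nonneg hV h hv x
    omega

theorem mem_comm (hV : Core V) (h : Col V k A) {v w : Fin n → ℤ} (hv : v ∈ V) (hw : w ∈ V) :
    v ∈ K V A w ↔ K V A v = K V A w := by
  constructor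
  · exact K_eq hV h hw
  · intro he
    rw [← he]
    exact self_mem h hv

theorem K_card (hV : Core V) (h : Col V k A) {v : Fin n → ℤ} (hv : v ∈ V) :
    ((K V A v).card : ℤ) = k := by
  classical
  have h1 := relOf_deg (A v) hv (h.notMem hv)
  rw [h.eq v hv] at h1
  rw [← h1, deg, Finset.sum_congr rfl (fun x hx => D_val hV h hv hx), ← Finset.sum_filter,
    Finset.sum_const, nsmul_eq_mul, mul_one]
  congr 2
  ext x
  rw [Finset.mem_filter]
  exact ⟨fun hx => ⟨K_sub v hx, hx⟩, fun hx => hx.2⟩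

theorem K_sum (hV : Core V) (h : Col V k A) {v : Fin n → ℤ} (hv : v ∈ V) :
    ∑ x ∈ K V A v, x = 0 := by
  classical
  have h1 := relOf_isRel (A v) hv
  unfold IsRel at h1
  rw [Finset.sum_congr rfl (fun x hx => by rw [D_val hV h hv hx])] at h1
  simp only [ite_smul, one_smul, zero_smul] at h1
  rw [← Finset.sum_filter] at h1
  rw [← h1]
  refine Finset.sum_congr ?_ (fun _ _ => rfl)
  ext x
  rw [Finset.mem_filter]
  exact ⟨fun hx => ⟨K_sub v hx, hx⟩, fun hx => hx.2⟩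

/-- All but `v` lie in the facet. -/
theorem K_in (hV : Core V) (h : Col V k A) {v x : Fin n → ℤ} (hv : v ∈ V) (hx : x ∈ K V A v)
    (hxv : x ≠ v) : x ∈ (A v).F := by
  by_contra hcon
  have h1 := D_one hV h hv hx
  rw [relOf_out _ hcon hxv] at h1
  norm_num at h1

theorem K_map (hV : Core V) (h : Col V k A) {v x : Fin n → ℤ} (hv : v ∈ V)
    {g : (Fin n → ℤ) ≃ₗ[ℤ] (Fin n → ℤ)} (hg : g ∈ latticeAut V) :
    g x ∈ K V A (g v) ↔ x ∈ K V A v := by
  have hgv : g v ∈ V := (hg v).2 hv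
  have hco : ∀ y ∈ V, relOf ((A v).map g hg) (g v) (g y) = relOf (A v) v y := by
    intro y hy
    classical
    unfold relOf
    have e1 : (g y = g v) ↔ y = v := g.injective.eq_iff
    have e2 : ((A v).map g hg).co (g y) (g v) = (A v).co y v := by
      show (A v).co (g.symm (g y)) (g.symm (g v)) = _
      simp
    rw [e2]
    simp only [e1, (A v).map_mem hg]
  rw [mem_K, mem_K]
  constructor
  · rintro ⟨h1, h2⟩
    have hx : x ∈ V := (hg x).1 h1
    refine ⟨hx, ?_⟩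
    rw [← hco x hx, D_uniq hV h hgv _ (by rw [(A v).map_d hg, h.eq v hv]) h1]
    exact h2
  · rintro ⟨hx, h2⟩
    have h1 : g x ∈ V := (hg x).2 hx
    refine ⟨h1, ?_⟩
    rw [← D_uniq hV h hgv _ (by rw [(A v).map_d hg, h.eq v hv]) h1, hco x hx]
    exact h2

end Col

end FLT99
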