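import Pool.Agent.FLT99.Count

namespace FLT99

open Finset

variable {n : ℕ} {V : Finset (Fin n → ℤ)}

namespace Col

variable {k : ℤ} {A : (Fin n → ℤ) → Facet V}

/-- Every collection has an element off a facet. -/
theorem exists_off (hV : Core V) (h : Col V k A) (B : Facet V) {z : Fin n → ℤ} (hz : z ∈ V) :
    ∃ y ∈ K V A z, y ∉ B.F := by
  by_contra hcon
  push Not at hcon
  have h1 := K_d hV h hz B
  rw [Finset.sum_eq_zero (fun x hx => B.d_mem (hcon x hx))] at h1
  exact h.kpos.ne h1

/-- A choice of one element off the facet in every collection. -/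
theorem exists_rep (hV : Core V) (h : Col V k A) (B : Facet V) :
    ∃ R : Finset (Fin n → ℤ), R ⊆ V \ B.F ∧ R.card = (Kn V A).card ∧
      ∀ z ∈ V, ∃ y ∈ R, ∀ x ∈ R, x ∈ K V A z ↔ x = y := by
  classical
  have h1 : ∀ C ∈ Kn V A, ∃ y ∈ C, y ∉ B.F := by
    intro C hC
    obtain ⟨z, hz, rfl⟩ := mem_Kn.1 hC
    exact exists_off hV h B hz
  choose! rep hrep hrepF using h1
  have hrV : ∀ C ∈ Kn V A, rep C ∈ V := by
    intro C hC
    have h2 := hrep C hC
    obtain ⟨z, hz, rfl⟩ := mem_Kn.1 hC
    exact K_sub z h2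
  have hK : ∀ C ∈ Kn V A, K V A (rep C) = C := by
    intro C hC
    have h2 := hrep C hC
    obtain ⟨z, hz, rfl⟩ := mem_Kn.1 hC
    exact K_eq hV h hz h2
  refine ⟨(Kn V A).image rep, ?_, ?_, ?_⟩
  · intro x hx
    rw [Finset.mem_image] at hx
    obtain ⟨C, hC, rfl⟩ := hx
    exact Finset.mem_sdiff.2 ⟨hrV C hC, hrepF C hC⟩
  · apply Finset.card_image_of_injOn
    intro C hC C' hC' he
    have h2 := hK C hC
    have h3 := hK C' hC'
    rw [← h2, ← h3, he]
  · intro z hz
    have hzK : K V A z ∈ Kn V A := mem_Kn.2 ⟨z, hz, rfl⟩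
    refine ⟨rep (K V A z), Finset.mem_image_of_mem _ hzK, ?_⟩
    intro x hx
    rw [Finset.mem_image] at hx
    obtain ⟨C, hC, rfl⟩ := hx
    constructor
    · intro hxz
      have h2 := K_eq hV h hz hxz
      rw [hK C hC] at h2
      rw [h2]
    · intro he
      rw [he]
      exact hrep _ hzK

/-- Agreement off the representatives gives agreement modulo two. -/
theorem mod_two_of (hV : Core V) (h : Col V k A) (B : Facet V) {R : Finset (Fin n → ℤ)}
    (hR : R ⊆ V \ B.F) (hRu : ∀ z ∈ V, ∃ y ∈ R, ∀ x ∈ R, x ∈ K V A z ↔ x = y)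
    {v w w' : Fin n → ℤ} (hv : v ∈ V) (hw : w ∈ K V A v) (hw' : w' ∈ K V A v)
    (he : ∀ y ∈ (V \ B.F) \ R, (2 : ℤ) ∣ relOf B y w - relOf B y w') :
    ∀ r, IsRel V r → (2 : ℤ) ∣ r w - r w' := by
  classical
  have hwV := K_sub v hw
  have hwV' := K_sub v hw'
  have hbase : ∀ y ∈ V \ B.F, (2 : ℤ) ∣ relOf B y w - relOf B y w' := by
    intro y hy
    by_cases hyR : y ∈ R
    · have hyV := (Finset.mem_sdiff.1 hy).1
      have e1 := rel_expand B (relOf_isRel (A y) hyV) hwV
      have e2 := rel_expand B (relOf_isRel (A y) hyV) hwV'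
      have e3 : relOf (A y) y w = relOf (A y) y w' := by
        rw [D_val hV h hyV hwV, D_val hV h hyV hwV']
        have : w ∈ K V A y ↔ w' ∈ K V A y := by
          rw [mem_comm hV h hwV hyV, mem_comm hV h hwV' hyV, K_eq hV h hv hw, K_eq hV h hv hw']
        simp only [this]
      rw [e1, e2, ← Finset.add_sum_erase _ _ hy, ← Finset.add_sum_erase (V \ B.F) _ hy,
        relOf_self _ (h.notMem hyV), one_mul, one_mul] at e3
      have e4 : relOf B y w - relOf B y w' = ∑ z ∈ (V \ B.F).erase y,
          relOf (A y) y z * (relOf B z w' - relOf B z w) := by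
        have e5 : ∑ z ∈ (V \ B.F).erase y, relOf (A y) y z * (relOf B z w' - relOf B z w)
            = ∑ z ∈ (V \ B.F).erase y, relOf (A y) y z * relOf B z w'
              - ∑ z ∈ (V \ B.F).erase y, relOf (A y) y z * relOf B z w := by
          rw [← Finset.sum_sub_distrib]
          exact Finset.sum_congr rfl fun z _ => by ring
        rw [e5]
        linarith
      rw [e4]
      refine Finset.dvd_sum fun z hz => ?_
      have hz' := Finset.mem_erase.1 hz
      have hzV := (Finset.mem_sdiff.1 hz'.2).1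
      by_cases hzK : z ∈ K V A y
      · have hzR : z ∉ R := by
          intro hzR
          obtain ⟨y', _, hy'⟩ := hRu y hyV
          have h1 := (hy' y hyR).1 (self_mem h hyV)
          have h2 := (hy' z hzR).1 hzK
          exact hz'.1 (h2.trans h1.symm)
        have h3 := he z (Finset.mem_sdiff.2 ⟨hz'.2, hzR⟩)
        have h4 : relOf B z w' - relOf B z w = -(relOf B z w - relOf B z w') := by ring
        rw [h4]
        exact Dvd.dvd.mul_left ((dvd_neg).2 h3) _
      · rw [D_val hV h hyV hzV, if_neg hzK, zero_mul]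
        exact dvd_zero 2
    · exact he y (Finset.mem_sdiff.2 ⟨hy, hyR⟩)
  intro r hr
  rw [rel_expand B hr hwV, rel_expand B hr hwV', ← Finset.sum_sub_distrib]
  refine Finset.dvd_sum fun y hy => ?_
  rw [← mul_sub]
  exact Dvd.dvd.mul_left (hbase y hy) _

/-- The number of vertices off a facet exceeds the number of collections by at least three. -/
theorem off_ge (hV : Core V) (hF : FibreLike V) (h : Col V k A) {T M : ℤ} (hT : Gen V T)
    (hk : k = M * T) (hM : 3 ≤ M) (hVT : ¬ VertexTransitive V) (B : Facet V) :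
    (Kn V A).card + 3 ≤ (V \ B.F).card := by
  classical
  unfold VertexTransitive at hVT
  push Not at hVT
  obtain ⟨a, ha, b, hb, hab⟩ := hVT
  obtain ⟨R, hR, hRc, hRu⟩ := exists_rep hV h B
  set W := (V \ B.F) \ R with hW
  have hWc : W.card = (V \ B.F).card - (Kn V A).card := by
    rw [hW, Finset.card_sdiff_of_subset hR, hRc]
  have hRle : (Kn V A).card ≤ (V \ B.F).card := by
    rw [← hRc]
    exact Finset.card_le_card hR
  let Φ : (Fin n → ℤ) → Finset (Fin n → ℤ) := fun w => W.filter (fun y => (2 : ℤ) ∣ relOf B y w)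
  have hΦ : ∀ w ∈ K V A a, ∀ w' ∈ K V A a, Φ w = Φ w' → Tw V w w' ∧ SameOrbit V w w' := by
    intro w hw w' hw' he
    have hwV := K_sub a hw
    have hKw := K_eq hV h ha hw
    refine of_mod_two hV hF h hwV (by rw [hKw]; exact hw') ?_
    refine mod_two_of hV h B hR hRu ha hw hw' ?_
    intro y hy
    have h1 : y ∈ Φ w ↔ y ∈ Φ w' := by rw [he]
    simp only [Φ, Finset.mem_filter] at h1
    have h2 : (2 : ℤ) ∣ relOf B y w ↔ (2 : ℤ) ∣ relOf B y w' := by
      constructor
      · intro h3
        exact (h1.1 ⟨hy, h3⟩).2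
      · intro h3
        exact (h1.2 ⟨hy, h3⟩).2
    omega
  have hcount : ∀ o ∈ V, M ≤ ((((K V A a).filter (fun x => SameOrbit V o x)).image Φ).card : ℤ) := by
    intro o ho
    have h1 := K_orb_ge hV hF h hT hk (by linarith) ha ho
    have h2 : ((K V A a).filter (fun x => SameOrbit V o x)).card ≤ (cls V o).card *
        (((K V A a).filter (fun x => SameOrbit V o x)).image Φ).card := by
      apply Finset.card_le_mul_card_image
      intro φ hφ
      rw [Finset.mem_image] at hφ
      obtain ⟨w, hw, rfl⟩ := hφ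
      rw [Finset.mem_filter] at hw
      rw [← cls_card hw.2]
      apply Finset.card_le_card
      intro x hx
      rw [Finset.mem_filter, Finset.mem_filter] at hx
      exact mem_cls.2 ⟨K_sub a hx.1.1, (hΦ w hw.1 x hx.1.1 hx.2.symm).1⟩
    have h3 : (0 : ℤ) < (cls V o).card := by
      have : 0 < (cls V o).card := Finset.card_pos.2 ⟨o, self_mem_cls ho⟩
      exact_mod_cast this
    have h4 : (((K V A a).filter (fun x => SameOrbit V o x)).card : ℤ) ≤ (cls V o).card *
        (((K V A a).filter (fun x => SameOrbit V o x)).image Φ).card := by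
      exact_mod_cast h2
    have h5 : M * (cls V o).card ≤
        (((K V A a).filter (fun x => SameOrbit V o x)).image Φ).card * (cls V o).card := by
      linarith
    exact le_of_mul_le_mul_right h5 h3
  have hdisj : Disjoint (((K V A a).filter (fun x => SameOrbit V a x)).image Φ)
      (((K V A a).filter (fun x => SameOrbit V b x)).image Φ) := by
    rw [Finset.disjoint_left]
    intro φ h1 h2
    rw [Finset.mem_image] at h1 h2
    obtain ⟨w, hw, hwφ⟩ := h1
    obtain ⟨w', hw', hwφ'⟩ := h2
    rw [Finset.mem_filter] at hw hw'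
    have h3 := (hΦ w hw.1 w' hw'.1 (hwφ.trans hwφ'.symm)).2
    exact hab ((hw.2.trans h3).trans hw'.2.symm)
  have hsub : ((K V A a).filter (fun x => SameOrbit V a x)).image Φ ∪
      ((K V A a).filter (fun x => SameOrbit V b x)).image Φ ⊆ W.powerset := by
    intro φ hφ
    rw [Finset.mem_union, Finset.mem_image, Finset.mem_image] at hφ
    rw [Finset.mem_powerset]
    rcases hφ with ⟨w, _, rfl⟩ | ⟨w, _, rfl⟩
    · exact Finset.filter_subset _ _
    · exact Finset.filter_subset _ _
  have hle := Finset.card_le_card hsub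
  rw [Finset.card_union_of_disjoint hdisj, Finset.card_powerset] at hle
  have g1 := hcount a ha
  have g2 := hcount b hb
  have g3 : 6 ≤ 2 ^ W.card := by
    omega
  have g4 : 3 ≤ W.card := by
    by_contra hcon
    push Not at hcon
    have : 2 ^ W.card ≤ 2 ^ 2 := Nat.pow_le_pow_right (by norm_num) (by omega)
    omega
  omega

end Col

end FLT99
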