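import Pool.Agent.FLT99.Star

namespace FLT99

open Finset

variable {n : ℕ} {V : Finset (Fin n → ℤ)}

namespace Facet

theorem d_nonneg (A : Facet V) {x : Fin n → ℤ} (hx : x ∈ V) : 0 ≤ A.d x := by
  by_cases h : x ∈ A.F
  · rw [A.d_mem h]
  · exact (A.d_pos hx h).le

theorem notMem_of_d (A : Facet V) {x : Fin n → ℤ} (h : A.d x ≠ 0) : x ∉ A.F := by
  intro hx
  exact h (A.d_mem hx)

end Facet

/-- The degree from the numbers `d`. -/
theorem deg_eq (A : Facet V) {r : (Fin n → ℤ) → ℤ} (hr : IsRel V r) :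
    deg V r = ∑ x ∈ V, r x * A.d x := by
  have h := hr.mapZ A.u
  have h2 : ∑ x ∈ V, r x * A.d x = ∑ x ∈ V, r x - ∑ x ∈ V, r x * A.u x := by
    rw [← Finset.sum_sub_distrib]
    refine Finset.sum_congr rfl fun x _ => ?_
    rw [Facet.d]
    ring
  rw [h2, h, deg]
  ring

/-- The value at a vertex of the facet. -/
theorem rel_at (A : Facet V) {r : (Fin n → ℤ) → ℤ} (hr : IsRel V r) {f : Fin n → ℤ}
    (hf : f ∈ A.F) : r f = - ∑ x ∈ V \ A.F, r x * A.co f x := by
  classical
  have h := hr.mapZ (A.co f)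
  rw [← Finset.sum_sdiff A.sub] at h
  have h2 : ∑ x ∈ A.F, r x * A.co f x = r f := by
    rw [Finset.sum_eq_single f]
    · rw [A.co_self f hf]
      ring
    · intro g hg hgf
      rw [A.co_ne f hf g hg (Ne.symm hgf)]
      ring
    · intro h
      exact absurd hf h
  rw [h2] at h
  linarith

/-- Two relations with the same values off a facet agree. -/
theorem rel_ext (A : Facet V) {r s : (Fin n → ℤ) → ℤ} (hr : IsRel V r) (hs : IsRel V s)
    (h : ∀ x ∈ V, x ∉ A.F → r x = s x) {x : Fin n → ℤ} (hx : x ∈ V) : r x = s x := by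
  by_cases hxF : x ∈ A.F
  · rw [rel_at A hr hxF, rel_at A hs hxF]
    congr 1
    refine Finset.sum_congr rfl fun y hy => ?_
    rw [Finset.mem_sdiff] at hy
    rw [h y hy.1 hy.2]
  · exact h x hx hxF

open Classical in
/-- The relation of a vertex with the facet. -/
noncomputable def relOf (A : Facet V) (v x : Fin n → ℤ) : ℤ :=
  (if x = v then 1 else 0) - (if x ∈ A.F then A.co x v else 0)

theorem relOf_isRel (A : Facet V) {v : Fin n → ℤ} (hv : v ∈ V) : IsRel V (relOf A v) := by
  classical
  unfold IsRel relOf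
  simp only [sub_smul]
  rw [Finset.sum_sub_distrib]
  have h1 : ∑ x ∈ V, (if x = v then (1 : ℤ) else 0) • x = v := by
    rw [Finset.sum_eq_single v]
    · simp
    · intro b _ hb
      simp [hb]
    · intro h
      exact absurd hv h
  have h2 : ∑ x ∈ V, (if x ∈ A.F then A.co x v else 0) • x = v := by
    conv_rhs => rw [← A.expand v]
    rw [← Finset.sum_subset A.sub]
    · refine Finset.sum_congr rfl fun x hx => ?_
      rw [if_pos hx]
    · intro x _ hx
      rw [if_neg hx, zero_smul]
  rw [h1, h2]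
  simp

theorem relOf_self (A : Facet V) {v : Fin n → ℤ} (hv : v ∉ A.F) : relOf A v v = 1 := by
  classical
  simp [relOf, hv]

theorem relOf_out (A : Facet V) {v x : Fin n → ℤ} (hx : x ∉ A.F) (hxv : x ≠ v) :
    relOf A v x = 0 := by
  classical
  simp [relOf, hx, hxv]

theorem relOf_in (A : Facet V) {v x : Fin n → ℤ} (hx : x ∈ A.F) (hv : v ∉ A.F) :
    relOf A v x = - A.co x v := by
  classical
  have : x ≠ v := by
    rintro rfl
    exact hv hx
  simp [relOf, hx, this]

theorem relOf_deg (A : Facet V) {v : Fin n → ℤ} (hv : v ∈ V) (hvF : v ∉ A.F) :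
    deg V (relOf A v) = A.d v := by
  classical
  rw [deg_eq A (relOf_isRel A hv), Finset.sum_eq_single v]
  · rw [relOf_self A hvF]
    ring
  · intro x _ hxv
    by_cases hxF : x ∈ A.F
    · rw [A.d_mem hxF]
      ring
    · rw [relOf_out A hxF hxv]
      ring
  · intro h
    exact absurd hv h

/-- Relations are closed under sums. -/
theorem IsRel.add {r s : (Fin n → ℤ) → ℤ} (hr : IsRel V r) (hs : IsRel V s) :
    IsRel V (fun x => r x + s x) := by
  unfold IsRel at *
  simp only [add_smul]
  rw [Finset.sum_add_distrib, hr, hs, add_zero]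

theorem IsRel.smul (z : ℤ) {r : (Fin n → ℤ) → ℤ} (hr : IsRel V r) :
    IsRel V (fun x => z * r x) := by
  unfold IsRel at *
  simp only [mul_smul]
  rw [← Finset.smul_sum, hr, smul_zero]

theorem IsRel.sum {ι : Type*} (S : Finset ι) (r : ι → (Fin n → ℤ) → ℤ)
    (hr : ∀ i ∈ S, IsRel V (r i)) : IsRel V (fun x => ∑ i ∈ S, r i x) := by
  unfold IsRel at *
  simp only [Finset.sum_smul]
  rw [Finset.sum_comm]
  exact Finset.sum_eq_zero hr

/-- Every relation is a combination of the relations `relOf`. -/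
theorem rel_expand (A : Facet V) {r : (Fin n → ℤ) → ℤ} (hr : IsRel V r) {x : Fin n → ℤ}
    (hx : x ∈ V) : r x = ∑ y ∈ V \ A.F, r y * relOf A y x := by
  classical
  have hs : IsRel V (fun x => ∑ y ∈ V \ A.F, r y * relOf A y x) := by
    apply IsRel.sum
    intro y hy
    exact IsRel.smul (r y) (relOf_isRel A (Finset.mem_sdiff.1 hy).1)
  refine rel_ext A hr hs ?_ hx
  intro z hz hzF
  rw [Finset.sum_eq_single z]
  · rw [relOf_self A hzF, mul_one]
  · intro y _ hyz
    rw [relOf_out A hzF (Ne.symm hyz), mul_zero]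
  · intro h
    exact absurd (Finset.mem_sdiff.2 ⟨hz, hzF⟩) h

/-- Transport of a facet by a lattice automorphism. -/
def Facet.map (A : Facet V) (g : (Fin n → ℤ) ≃ₗ[ℤ] (Fin n → ℤ)) (hg : g ∈ latticeAut V) :
    Facet V where
  F := A.F.map g.toEquiv.toEmbedding
  sub := by
    intro x hx
    rw [Finset.mem_map] at hx
    obtain ⟨y, hy, rfl⟩ := hx
    exact (hg y).2 (A.sub hy)
  card := by
    rw [Finset.card_map, A.card]
  co := fun f => (A.co (g.symm f)).comp g.symm.toLinearMap
  co_self := by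
    intro f hf
    rw [Finset.mem_map] at hf
    obtain ⟨y, hy, rfl⟩ := hf
    simpa using A.co_self y hy
  co_ne := by
    intro f hf f' hf' hne
    rw [Finset.mem_map] at hf hf'
    obtain ⟨y, hy, rfl⟩ := hf
    obtain ⟨z, hz, rfl⟩ := hf'
    have : y ≠ z := by
      rintro rfl
      exact hne rfl
    simpa using A.co_ne y hy z hz this
  expand := by
    intro x
    rw [Finset.sum_map]
    have := congrArg g (A.expand (g.symm x))
    rw [map_sum] at this
    simp only [LinearEquiv.apply_symm_apply, map_smul] at this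
    conv_rhs => rw [← this]
    refine Finset.sum_congr rfl fun y _ => ?_
    simp
  neg := by
    intro v hv hvF
    rw [Finset.sum_map]
    have h1 : g.symm v ∈ V := by
      have := hg (g.symm v)
      rw [LinearEquiv.apply_symm_apply] at this
      exact this.1 hv
    have h2 : g.symm v ∉ A.F := by
      intro h
      apply hvF
      rw [Finset.mem_map]
      exact ⟨g.symm v, h, by simp⟩
    simpa using A.neg _ h1 h2

theorem Facet.map_mem (A : Facet V) {g : (Fin n → ℤ) ≃ₗ[ℤ] (Fin n → ℤ)}
    (hg : g ∈ latticeAut V) {x : Fin n → ℤ} : g x ∈ (A.map g hg).F ↔ x ∈ A.F := by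
  show g x ∈ A.F.map g.toEquiv.toEmbedding ↔ x ∈ A.F
  rw [Finset.mem_map]
  constructor
  · rintro ⟨y, hy, hxy⟩
    have : y = x := g.injective hxy
    rwa [← this]
  · intro h
    exact ⟨x, h, rfl⟩

theorem Facet.map_d (A : Facet V) {g : (Fin n → ℤ) ≃ₗ[ℤ] (Fin n → ℤ)}
    (hg : g ∈ latticeAut V) (x : Fin n → ℤ) : (A.map g hg).d (g x) = A.d x := by
  have h : A.u.comp g.symm.toLinearMap = (A.map g hg).u := by
    apply Facet.u_unique
    intro f hf
    have hf' : g (g.symm f) ∈ (A.map g hg).F := by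
      rw [LinearEquiv.apply_symm_apply]
      exact hf
    rw [A.map_mem hg] at hf'
    exact A.u_mem hf'
  rw [Facet.d, Facet.d, ← h]
  simp

end FLT99
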