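import Pool.Agent.FLT99.Inv

namespace FLT99

open Finset

variable {n : ℕ} {V : Finset (Fin n → ℤ)}

open Classical in
/-- The orbit of `v` as a finset. -/
noncomputable def Orb (V : Finset (Fin n → ℤ)) (v : Fin n → ℤ) : Finset (Fin n → ℤ) :=
  V.filter (fun x => SameOrbit V v x)

theorem mem_Orb {v x : Fin n → ℤ} : x ∈ Orb V v ↔ x ∈ V ∧ SameOrbit V v x := by
  classical
  simp [Orb]

theorem self_mem_Orb {v : Fin n → ℤ} (hv : v ∈ V) : v ∈ Orb V v :=
  mem_Orb.2 ⟨hv, SameOrbit.refl V v⟩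

theorem prop_const (hV : Core V) (hF : FibreLike V) {c s : (Fin n → ℤ) → ℝ}
    (hc : ∀ v ∈ V, 0 < c v) (hcr : IsRelR V c) (hci : IsInv V c)
    (hsr : IsRelR V s) (hsi : IsInv V s) {v w : Fin n → ℤ} (hv : v ∈ V) (hw : w ∈ V) :
    s v * c w = s w * c v := by
  classical
  by_cases hvw : SameOrbit V v w
  · rw [hci.eq hvw, hsi.eq hvw]
  obtain ⟨m, hm, hmx⟩ := exists_form hV hF hw (fun x => if SameOrbit V v x then 1 else 0) (by
    intro g hg x
    have : SameOrbit V v (g x) ↔ SameOrbit V v x :=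
      ⟨fun h => h.trans (SameOrbit.symm ⟨g, hg, rfl⟩), fun h => h.trans ⟨g, hg, rfl⟩⟩
    simp only [this])
  have key : ∀ r : (Fin n → ℤ) → ℝ, IsRelR V r → IsInv V r →
      ((Orb V v).card : ℝ) * r v + ((Orb V w).card : ℝ) * r w * (m w : ℝ) = 0 := by
    intro r hr hri
    have h1 := hr (castQ m)
    rw [← h1]
    have h2 : ∀ x ∈ V, r x * castQ m x =
        (if x ∈ Orb V v then r v else 0) + (if x ∈ Orb V w then r w * (m w : ℝ) else 0) := by
      intro x hx
      rw [castQ_apply]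
      by_cases hwx : SameOrbit V w x
      · have hnv : ¬ SameOrbit V v x := fun h => hvw (h.trans hwx.symm)
        rw [if_neg (fun h => hnv (mem_Orb.1 h).2), if_pos (mem_Orb.2 ⟨hx, hwx⟩), zero_add]
        obtain ⟨g, hg, hgx⟩ := hwx
        rw [← hgx, hm g hg w, hri g hg w]
      · rw [if_neg (fun h => hwx (mem_Orb.1 h).2), hmx x hx hwx, add_zero]
        by_cases hvx : SameOrbit V v x
        · rw [if_pos hvx, if_pos (mem_Orb.2 ⟨hx, hvx⟩), hri.eq hvx]
          simp
        · rw [if_neg hvx, if_neg (fun h => hvx (mem_Orb.1 h).2)]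
          simp
    rw [Finset.sum_congr rfl h2, Finset.sum_add_distrib, ← Finset.sum_filter,
      ← Finset.sum_filter, Finset.sum_const, Finset.sum_const]
    have e1 : V.filter (fun x => x ∈ Orb V v) = Orb V v := by
      ext x
      rw [Finset.mem_filter, mem_Orb]
      tauto
    have e2 : V.filter (fun x => x ∈ Orb V w) = Orb V w := by
      ext x
      rw [Finset.mem_filter, mem_Orb]
      tauto
    rw [e1, e2, nsmul_eq_mul, nsmul_eq_mul]
    ring
  have k1 := key c hcr hci
  have k2 := key s hsr hsi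
  have hpos : (0 : ℝ) < ((Orb V v).card : ℝ) := by
    have : 0 < (Orb V v).card := Finset.card_pos.2 ⟨v, self_mem_Orb hv⟩
    exact_mod_cast this
  have h3 : ((Orb V v).card : ℝ) * (s v * c w - s w * c v) = 0 := by
    linear_combination (c w) * k2 - (s w) * k1
  rcases mul_eq_zero.1 h3 with h | h
  · linarith
  · linarith

theorem c_mul (hV : Core V) (hF : FibreLike V) {c : (Fin n → ℤ) → ℝ}
    (hc : ∀ v ∈ V, 0 < c v) (hcr : IsRelR V c) (hci : IsInv V c)
    {v w : Fin n → ℤ} (hv : v ∈ V) (hw : w ∈ V) (hvw : ¬ SameOrbit V v w) :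
    ∃ z : ℤ, c v = c w * z := by
  classical
  obtain ⟨m, hm, hmx⟩ := exists_form hV hF hw (fun _ => 1) (by
    intro g hg x
    rfl)
  have hneg : (m w : ℝ) < 0 := by
    have h1 := hcr (castQ m)
    have h2 : ∀ x ∈ V, c x * castQ m x =
        (if x ∈ Orb V w then c w * (m w : ℝ) else c x) := by
      intro x hx
      rw [castQ_apply]
      by_cases hwx : SameOrbit V w x
      · rw [if_pos (mem_Orb.2 ⟨hx, hwx⟩)]
        obtain ⟨g, hg, hgx⟩ := hwx
        rw [← hgx, hm g hg w, hci g hg w]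
      · rw [if_neg (fun h => hwx (mem_Orb.1 h).2), hmx x hx hwx]
        simp
    rw [Finset.sum_congr rfl h2] at h1
    by_contra hcon
    push Not at hcon
    have h3 : 0 < ∑ x ∈ V, (if x ∈ Orb V w then c w * (m w : ℝ) else c x) := by
      refine Finset.sum_pos' ?_ ⟨v, hv, ?_⟩
      · intro x hx
        split_ifs
        · exact mul_nonneg (hc w hw).le hcon
        · exact (hc x hx).le
      · rw [if_neg (fun h => hvw (mem_Orb.1 h).2.symm)]
        exact hc v hv
    linarith
  have hle : ∀ x ∈ V, castQ m x ≤ 1 := by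
    intro x hx
    rw [castQ_apply]
    by_cases hwx : SameOrbit V w x
    · obtain ⟨g, hg, hgx⟩ := hwx
      rw [← hgx, hm g hg w]
      linarith
    · rw [hmx x hx hwx]
      simp
  obtain ⟨A, hA⟩ := exists_facet hV (castQ m) hle
  have hout : ∀ x ∈ V, x ∉ A.F → c x = c w := by
    intro x hx hxA
    by_contra hne
    apply hxA
    apply hA x hx
    rw [castQ_apply, hmx x hx (fun h => hne (hci.eq h))]
    simp
  have hvA : v ∈ A.F := by
    apply hA v hv
    rw [castQ_apply, hmx v hv (fun h => hvw h.symm)]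
    simp
  refine ⟨-∑ x ∈ V.filter (fun x => x ∉ A.F), A.co v x, ?_⟩
  have h1 := hcr (toReal (A.co v))
  rw [← Finset.sum_filter_add_sum_filter_not V (fun x => x ∉ A.F)] at h1
  have h2 : ∑ x ∈ V.filter (fun x => x ∉ A.F), c x * toReal (A.co v) x
      = c w * ((∑ x ∈ V.filter (fun x => x ∉ A.F), A.co v x : ℤ) : ℝ) := by
    rw [Int.cast_sum, Finset.mul_sum]
    refine Finset.sum_congr rfl fun x hx => ?_
    rw [Finset.mem_filter] at hx
    rw [hout x hx.1 hx.2, toReal_apply]
  have h3 : ∑ x ∈ V.filter (fun x => ¬ x ∉ A.F), c x * toReal (A.co v) x = c v := by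
    rw [Finset.sum_eq_single v]
    · rw [toReal_apply, A.co_self v hvA]
      simp
    · intro x hx hxv
      rw [Finset.mem_filter, not_not] at hx
      rw [toReal_apply, A.co_ne v hvA x hx.2 (Ne.symm hxv)]
      simp
    · intro h
      exfalso
      apply h
      rw [Finset.mem_filter, not_not]
      exact ⟨hv, hvA⟩
  rw [h2, h3] at h1
  push_cast at h1 ⊢
  linarith

theorem c_const (hV : Core V) (hF : FibreLike V) {c : (Fin n → ℤ) → ℝ}
    (hc : ∀ v ∈ V, 0 < c v) (hcr : IsRelR V c) (hci : IsInv V c)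
    {v w : Fin n → ℤ} (hv : v ∈ V) (hw : w ∈ V) : c v = c w := by
  by_cases hvw : SameOrbit V v w
  · exact (hci.eq hvw).symm
  obtain ⟨z, hz⟩ := c_mul hV hF hc hcr hci hv hw hvw
  obtain ⟨z', hz'⟩ := c_mul hV hF hc hcr hci hw hv (fun h => hvw h.symm)
  have h1 := hc v hv
  have h2 := hc w hw
  have hzp : 0 < z := by
    by_contra hcon
    push Not at hcon
    have : (z : ℝ) ≤ 0 := by exact_mod_cast hcon
    have : c w * z ≤ 0 := mul_nonpos_of_nonneg_of_nonpos h2.le this
    linarith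
  have hzp' : 0 < z' := by
    by_contra hcon
    push Not at hcon
    have : (z' : ℝ) ≤ 0 := by exact_mod_cast hcon
    have : c v * z' ≤ 0 := mul_nonpos_of_nonneg_of_nonpos h1.le this
    linarith
  have g1 : c w ≤ c v := by
    have : (1 : ℝ) ≤ z := by exact_mod_cast hzp
    rw [hz]
    nlinarith
  have g2 : c v ≤ c w := by
    have : (1 : ℝ) ≤ z' := by exact_mod_cast hzp'
    rw [hz']
    nlinarith
  linarith

/-- All coefficients one. -/
theorem sum_form (hV : Core V) (hF : FibreLike V) (ψ : (Fin n → ℤ) →ₗ[ℤ] ℝ) :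
    ∑ x ∈ V, ψ x = 0 := by
  obtain ⟨c, hc, hcr, hci⟩ := exists_c hV
  rcases V.eq_empty_or_nonempty with h | ⟨v, hv⟩
  · rw [h]
    simp
  have h1 := hcr ψ
  have h2 : ∑ x ∈ V, c x * ψ x = c v * ∑ x ∈ V, ψ x := by
    rw [Finset.mul_sum]
    exact Finset.sum_congr rfl fun x hx => by rw [c_const hV hF hc hcr hci hx hv]
  rw [h2] at h1
  rcases mul_eq_zero.1 h1 with h | h
  · have := hc v hv
    linarith
  · exact h

/-- integer relation -/
def IsRel (V : Finset (Fin n → ℤ)) (r : (Fin n → ℤ) → ℤ) : Prop := ∑ x ∈ V, r x • x = 0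

theorem IsRel.map {r : (Fin n → ℤ) → ℤ} (h : IsRel V r) {R : Type*} [AddCommGroup R]
    (a : (Fin n → ℤ) →ₗ[ℤ] R) : ∑ x ∈ V, r x • a x = 0 := by
  have := congrArg a h
  rw [map_sum, map_zero] at this
  rw [← this]
  exact Finset.sum_congr rfl fun x _ => (map_smul a (r x) x).symm

theorem IsRel.mapZ {r : (Fin n → ℤ) → ℤ} (h : IsRel V r) (a : (Fin n → ℤ) →ₗ[ℤ] ℤ) :
    ∑ x ∈ V, r x * a x = 0 := h.map a

theorem one_isRel (hV : Core V) (hF : FibreLike V) : IsRel V (fun _ => 1) := by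
  unfold IsRel
  simp only [one_smul]
  funext i
  have h := sum_form hV hF (toReal (LinearMap.proj i))
  simp only [toReal_apply, LinearMap.proj_apply] at h
  rw [Finset.sum_apply]
  exact_mod_cast h

/-- The degree of a relation. -/
def deg (V : Finset (Fin n → ℤ)) (r : (Fin n → ℤ) → ℤ) : ℤ := ∑ x ∈ V, r x

theorem star (hV : Core V) (hF : FibreLike V) {r : (Fin n → ℤ) → ℤ} (hr : IsRel V r)
    {v : Fin n → ℤ} (hv : v ∈ V) :
    (V.card : ℤ) * ∑ x ∈ Orb V v, r x = (Orb V v).card * deg V r := by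
  classical
  have := finite_aut hV
  have := Fintype.ofFinite (latticeAut V)
  have hrR : IsRelR V (fun x => (r x : ℝ)) := by
    intro ψ
    have := hr.map ψ
    simpa [zsmul_eq_mul] using this
  have hsr := avg_rel hrR
  have hsi := avg_inv (V := V) (fun x => (r x : ℝ))
  set s := avg V (fun x => (r x : ℝ)) with hs
  obtain ⟨c, hc, hcr, hci⟩ := exists_c hV
  have hconst : ∀ x ∈ V, s x = s v := by
    intro x hx
    have h1 := prop_const hV hF hc hcr hci hsr hsi hx hv
    rw [c_const hV hF hc hcr hci hx hv] at h1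
    exact mul_right_cancel₀ (hc v hv).ne' h1
  have hG : (0 : ℝ) < (Fintype.card (latticeAut V) : ℝ) := by
    exact_mod_cast Fintype.card_pos
  have hsumV : ∑ x ∈ V, s x = (Fintype.card (latticeAut V) : ℝ) * (deg V r : ℝ) := by
    rw [hs]
    unfold avg
    rw [Finset.sum_comm]
    have : ∀ g : latticeAut V, ∑ x ∈ V, (r (g.1 x) : ℝ) = (deg V r : ℝ) := by
      intro g
      rw [sum_aut g.2 (fun x => (r x : ℝ)), deg]
      push_cast
      rfl
    rw [Finset.sum_congr rfl (fun g _ => this g), Finset.sum_const, nsmul_eq_mul]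
    rfl
  have hsumO : ∑ x ∈ Orb V v, s x =
      (Fintype.card (latticeAut V) : ℝ) * ((∑ x ∈ Orb V v, r x : ℤ) : ℝ) := by
    rw [hs]
    unfold avg
    rw [Finset.sum_comm]
    have : ∀ g : latticeAut V, ∑ x ∈ Orb V v, (r (g.1 x) : ℝ)
        = ((∑ x ∈ Orb V v, r x : ℤ) : ℝ) := by
      intro g
      push_cast
      refine Finset.sum_equiv g.1.toEquiv ?_ ?_
      · intro x
        rw [mem_Orb, mem_Orb]
        constructor
        · rintro ⟨h1, h2⟩
          exact ⟨(g.2 x).2 h1, h2.trans ⟨g.1, g.2, rfl⟩⟩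
        · rintro ⟨h1, h2⟩
          exact ⟨(g.2 x).1 h1, h2.trans (SameOrbit.symm ⟨g.1, g.2, rfl⟩)⟩
      · intro x _
        rfl
    rw [Finset.sum_congr rfl (fun g _ => this g), Finset.sum_const, nsmul_eq_mul]
    rfl
  rw [Finset.sum_congr rfl hconst, Finset.sum_const, nsmul_eq_mul] at hsumV
  rw [Finset.sum_congr rfl (fun x hx => hconst x (mem_Orb.1 hx).1), Finset.sum_const,
    nsmul_eq_mul] at hsumO
  have h5 : (Fintype.card (latticeAut V) : ℝ) *
      ((V.card : ℝ) * ((∑ x ∈ Orb V v, r x : ℤ) : ℝ) - (Orb V v).card * (deg V r : ℝ)) = 0 := by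
    linear_combination ((Orb V v).card : ℝ) * hsumV - (V.card : ℝ) * hsumO
  rcases mul_eq_zero.1 h5 with h | h
  · linarith
  · have h6 : (V.card : ℝ) * ((∑ x ∈ Orb V v, r x : ℤ) : ℝ)
        = (Orb V v).card * (deg V r : ℝ) := by linarith
    exact_mod_cast h6

end FLT99
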