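import Pool.Agent.FLT99.Max

namespace FLT99

open Finset

variable {n : ℕ} {V : Finset (Fin n → ℤ)}

/-- The gcd of the degrees of all relations. -/
structure Gen (V : Finset (Fin n → ℤ)) (T : ℤ) : Prop where
  pos : 0 < T
  ex : ∃ r, IsRel V r ∧ deg V r = T
  dvd : ∀ r, IsRel V r → T ∣ deg V r

theorem exists_gen (hV : Core V) (hF : FibreLike V) : ∃ T, Gen V T := by
  let I : Ideal ℤ :=
    { carrier := {z | ∃ r, IsRel V r ∧ deg V r = z}
      add_mem' := by
        rintro a b ⟨r, hr, rfl⟩ ⟨s, hs, rfl⟩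
        exact ⟨_, hr.add hs, by simp [deg, Finset.sum_add_distrib]⟩
      zero_mem' := ⟨fun _ => 0, by simp [IsRel], by simp [deg]⟩
      smul_mem' := by
        rintro c a ⟨r, hr, rfl⟩
        exact ⟨_, hr.smul c, by simp [deg, Finset.mul_sum]⟩ }
  obtain ⟨T, hT⟩ := (IsPrincipalIdealRing.principal I).principal
  have hdvd : ∀ r, IsRel V r → T ∣ deg V r := by
    intro r hr
    have h1 : deg V r ∈ I := ⟨r, hr, rfl⟩
    rw [hT] at h1
    exact Ideal.mem_span_singleton.1 h1
  have hmem : T ∈ I := by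
    rw [hT]
    exact Ideal.mem_span_singleton_self T
  have hne : T ≠ 0 := by
    rintro rfl
    have h1 := hdvd _ (one_isRel hV hF)
    rw [zero_dvd_iff] at h1
    unfold deg at h1
    simp only [Finset.sum_const, nsmul_eq_mul, mul_one] at h1
    obtain ⟨v, hv⟩ := nonempty_of_fibreLike hF
    have : V.card = 0 := by exact_mod_cast h1
    rw [Finset.card_eq_zero] at this
    rw [this] at hv
    exact absurd hv (Finset.notMem_empty v)
  obtain ⟨r, hr, hrT⟩ := hmem
  refine ⟨|T|, abs_pos.2 hne, ?_, fun r hr => (abs_dvd _ _).2 (hdvd r hr)⟩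
  rcases abs_choice T with h | h
  · exact ⟨r, hr, by rw [h, hrT]⟩
  · refine ⟨_, hr.smul (-1), ?_⟩
    rw [h, ← hrT]
    simp [deg]

/-- The number of orbits is at most the degree of a relation of positive degree. -/
theorem orbitCount_le (hV : Core V) (hF : FibreLike V) {r : (Fin n → ℤ) → ℤ} (hr : IsRel V r)
    (hd : 0 < deg V r) : (orbitCount V : ℤ) ≤ deg V r := by
  classical
  set orb : (Fin n → ℤ) → Set (Fin n → ℤ) := fun v => {w | SameOrbit V v w} with horb
  have h1 : orbitCount V = (V.image orb).card := by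
    unfold orbitCount
    rw [← Set.ncard_coe_finset, Finset.coe_image]
  rw [h1, deg, ← Finset.sum_fiberwise_of_maps_to (t := V.image orb)
    (fun x hx => Finset.mem_image_of_mem orb hx)]
  rw [Finset.card_eq_sum_ones]
  push_cast
  refine Finset.sum_le_sum fun O hO => ?_
  rw [Finset.mem_image] at hO
  obtain ⟨v, hv, rfl⟩ := hO
  have h2 := pos_in_orbit hV hF hr hd hv
  have h3 : V.filter (fun x => orb x = orb v) = Orb V v := by
    ext x
    rw [Finset.mem_filter, mem_Orb]
    refine and_congr_right fun hx => ?_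
    constructor
    · intro he
      have : x ∈ orb x := SameOrbit.refl V x
      rw [he] at this
      exact this
    · intro hvx
      ext y
      exact ⟨fun hy => hvx.trans hy, fun hy => hvx.symm.trans hy⟩
  rw [h3]
  linarith

/-- A relation of degree divisible. -/
theorem indexDvd_iff (hV : Core V) {T : ℤ} (hT : Gen V T) (r : ℕ) :
    IndexDvd V r ↔ (r : ℤ) ∣ T := by
  constructor
  · rintro ⟨m, hm⟩
    obtain ⟨s, hs, hsT⟩ := hT.ex
    rw [← hsT]
    have h := hs.mapZ m
    have h2 : deg V s = ∑ x ∈ V, s x * (1 - m x) := by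
      have : ∑ x ∈ V, s x * (1 - m x) = ∑ x ∈ V, s x - ∑ x ∈ V, s x * m x := by
        rw [← Finset.sum_sub_distrib]
        exact Finset.sum_congr rfl fun x _ => by ring
      rw [this, h, deg]
      ring
    rw [h2]
    exact Finset.dvd_sum fun x hx => Dvd.dvd.mul_left (hm x hx) _
  · intro h
    obtain ⟨A⟩ := exists_facet' hV
    refine ⟨A.u, fun v hv => ?_⟩
    by_cases hvF : v ∈ A.F
    · rw [A.u_mem hvF]
      simp
    · have h1 := hT.dvd _ (relOf_isRel A hv)
      rw [relOf_deg A hv hvF] at h1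
      exact h.trans h1

theorem Gen.dvd_d {T : ℤ} (hT : Gen V T) (A : Facet V) {v : Fin n → ℤ} (hv : v ∈ V) :
    T ∣ A.d v := by
  by_cases hvF : v ∈ A.F
  · rw [A.d_mem hvF]
    exact dvd_zero T
  · have h1 := hT.dvd _ (relOf_isRel A hv)
    rwa [relOf_deg A hv hvF] at h1

theorem Gen.le_d {T : ℤ} (hT : Gen V T) (A : Facet V) {v : Fin n → ℤ} (hv : v ∈ V)
    (hvF : v ∉ A.F) : T ≤ A.d v :=
  Int.le_of_dvd (A.d_pos hv hvF) (hT.dvd_d A hv)

/-- Twins: every relation has the same value. -/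
def Tw (V : Finset (Fin n → ℤ)) (v w : Fin n → ℤ) : Prop := ∀ r, IsRel V r → r v = r w

theorem Tw.symm {v w : Fin n → ℤ} (h : Tw V v w) : Tw V w v := fun r hr => (h r hr).symm

theorem Tw.trans {v w x : Fin n → ℤ} (h : Tw V v w) (h' : Tw V w x) : Tw V v x :=
  fun r hr => (h r hr).trans (h' r hr)

theorem Tw.refl (v : Fin n → ℤ) : Tw V v v := fun _ _ => rfl

/-- A form with the values `1, -1` and `0` else gives twins. -/
theorem tw_of_form {v w : Fin n → ℤ} (hv : v ∈ V) (hw : w ∈ V) (hne : w ≠ v)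
    (m : (Fin n → ℤ) →ₗ[ℤ] ℤ) (hmw : m w = 1) (hmv : m v = -1)
    (hm : ∀ x ∈ V, x ≠ v → x ≠ w → m x = 0) : Tw V v w := by
  classical
  intro r hr
  have h := hr.mapZ m
  rw [← Finset.add_sum_erase V _ hv, ← Finset.add_sum_erase (V.erase v) _
    (Finset.mem_erase.2 ⟨hne, hw⟩), hmw, hmv, Finset.sum_eq_zero] at h
  · linarith
  · intro x hx
    rw [Finset.mem_erase, Finset.mem_erase] at hx
    rw [hm x hx.2.2 hx.2.1 hx.1]
    ring

/-- ... and a lattice automorphism. -/
theorem sameOrbit_of_form {v w : Fin n → ℤ} (hv : v ∈ V) (hw : w ∈ V)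
    (m : (Fin n → ℤ) →ₗ[ℤ] ℤ) (hmw : m w = 1) (hmv : m v = -1)
    (hm : ∀ x ∈ V, x ≠ v → x ≠ w → m x = 0) : SameOrbit V v w := by
  have h2 : m (w - v) = 2 := by
    rw [map_sub, hmw, hmv]
    norm_num
  have hap : ∀ x, Module.reflection h2 x = x - m x • (w - v) := fun x =>
    Module.reflection_apply (h := h2) x
  have hmaps : ∀ x ∈ V, Module.reflection h2 x ∈ V := by
    intro x hx
    rw [hap]
    by_cases hxv : x = v
    · subst hxv
      rw [hmv]
      simpa using hw
    · by_cases hxw : x = w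
      · subst hxw
        rw [hmw]
        simpa using hv
      · rw [hm x hx hxv hxw]
        simpa using hx
  refine ⟨Module.reflection h2, ?_, ?_⟩
  · intro x
    refine ⟨fun hx => ?_, hmaps x⟩
    have := hmaps _ hx
    rwa [Module.involutive_reflection h2 x] at this
  · rw [hap, hmv]
    simp

namespace Col

variable {k : ℤ} {A : (Fin n → ℤ) → Facet V}

theorem co_v (hV : Core V) (h : Col V k A) {v w : Fin n → ℤ} (hv : v ∈ V)
    (hw : w ∈ K V A v) (hne : w ≠ v) : (A v).co w v = -1 := by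
  have h1 := D_one hV h hv hw
  rw [relOf_in _ (K_in hV h hv hw hne) (h.notMem hv)] at h1
  linarith

/-- The sum of a coordinate. -/
theorem co_sum (hV : Core V) (hF : FibreLike V) (B : Facet V) {f : Fin n → ℤ} (hf : f ∈ B.F) :
    ∑ x ∈ V \ B.F, B.co f x = -1 := by
  have h1 := rel_at B (one_isRel hV hF) hf
  simp only [one_mul] at h1
  linarith

/-- The two cases for the neighbour of a maximal facet. -/
theorem neighbour (hV : Core V) (hF : FibreLike V) (h : Col V k A) {v w : Fin n → ℤ}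
    (hv : v ∈ V) (hw : w ∈ K V A v) (hne : w ≠ v) :
    (∀ x ∈ V, x ≠ v → x ≠ w → (A v).co w x = 0) ∨
    (∃ y ∈ V, y ∉ (A v).F ∧ y ≠ v ∧ (A v).co w y = -1 ∧ (A v).d y < k ∧
      ∀ z ∈ V, z ∉ (A v).F → z ≠ y → -((A v).co w z) * (A v).d y < (A v).d z) := by
  classical
  have hwF := K_in hV h hv hw hne
  have hvF := h.notMem hv
  have hcv := co_v hV h hv hw hne
  obtain ⟨B, y, hy, hyF, _, hcy, hlt, _⟩ := exchange hV (A v) hwF
  by_cases hyv : y = v
  · left
    subst hyv
    have hnn : ∀ z ∈ V, z ∉ (A y).F → z ≠ y → 0 ≤ (A y).co w z := by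
      intro z hz hzF hzy
      have h1 := hlt z hz hzF hzy
      have h2 := h.le (A y) z hz
      rw [h.eq y hy] at h1
      by_contra hcon
      push Not at hcon
      have h3 : 1 ≤ -((A y).co w z) := by linarith
      have h4 := h.kpos
      nlinarith
    have hs := co_sum hV hF (A y) hwF
    rw [← Finset.add_sum_erase (V \ (A y).F) _ (Finset.mem_sdiff.2 ⟨hy, hyF⟩), hcy] at hs
    have hs0 : ∑ x ∈ (V \ (A y).F).erase y, (A y).co w x = 0 := by linarith
    rw [Finset.sum_eq_zero_iff_of_nonneg] at hs0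
    · intro x hx hxy hxw
      by_cases hxF : x ∈ (A y).F
      · exact (A y).co_ne w hwF x hxF (Ne.symm hxw)
      · exact hs0 x (Finset.mem_erase.2 ⟨hxy, Finset.mem_sdiff.2 ⟨hx, hxF⟩⟩)
    · intro x hx
      rw [Finset.mem_erase, Finset.mem_sdiff] at hx
      exact hnn x hx.2.1 hx.2.2 hx.1
  · right
    have h1 := hlt v hv hvF (Ne.symm hyv)
    rw [hcv, h.eq v hv] at h1
    exact ⟨y, hy, hyF, hyv, hcy, by linarith, hlt⟩

theorem tw_first (hV : Core V) (h : Col V k A) {v w : Fin n → ℤ}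
    (hv : v ∈ V) (hw : w ∈ K V A v) (hne : w ≠ v)
    (hz : ∀ x ∈ V, x ≠ v → x ≠ w → (A v).co w x = 0) : Tw V v w ∧ SameOrbit V v w := by
  have hwF := K_in hV h hv hw hne
  have hcv := co_v hV h hv hw hne
  have hww := (A v).co_self w hwF
  exact ⟨tw_of_form hv (K_sub v hw) hne _ hww hcv hz,
    sameOrbit_of_form hv (K_sub v hw) _ hww hcv hz⟩

/-- In the second case a relation separates. -/
theorem second (hV : Core V) (h : Col V k A) {v w y : Fin n → ℤ}
    (hv : v ∈ V) (hw : w ∈ K V A v) (hne : w ≠ v) (hyF : y ∉ (A v).F)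
    (hyv : y ≠ v) (hcy : (A v).co w y = -1) :
    relOf (A v) y v = 0 ∧ relOf (A v) y w = 1 := by
  refine ⟨relOf_out _ (h.notMem hv) (Ne.symm hyv), ?_⟩
  rw [relOf_in _ (K_in hV h hv hw hne) hyF, hcy]
  norm_num

/-- Agreement modulo two gives twins in the same orbit. -/
theorem of_mod_two (hV : Core V) (hF : FibreLike V) (h : Col V k A) {v w : Fin n → ℤ}
    (hv : v ∈ V) (hw : w ∈ K V A v) (hm : ∀ r, IsRel V r → (2 : ℤ) ∣ r v - r w) :
    Tw V v w ∧ SameOrbit V v w := by
  by_cases hne : w = v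
  · subst hne
    exact ⟨Tw.refl _, SameOrbit.refl V _⟩
  rcases neighbour hV hF h hv hw hne with hz | ⟨y, hy, hyF, hyv, hcy, _, _⟩
  · exact tw_first hV h hv hw hne hz
  · exfalso
    obtain ⟨h1, h2⟩ := second hV h hv hw hne hyF hyv hcy
    have h3 := hm _ (relOf_isRel (A v) hy)
    rw [h1, h2] at h3
    norm_num at h3

theorem sameOrbit_of_tw (hV : Core V) (hF : FibreLike V) (h : Col V k A) {v w : Fin n → ℤ}
    (hv : v ∈ V) (hw : w ∈ K V A v) (ht : Tw V v w) : SameOrbit V v w :=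
  (of_mod_two hV hF h hv hw (fun r hr => by rw [ht r hr, sub_self]; exact dvd_zero 2)).2

/-- Twins are in the same collection. -/
theorem mem_of_tw (hV : Core V) (h : Col V k A) {v w : Fin n → ℤ}
    (hv : v ∈ V) (hw : w ∈ V) (ht : Tw V v w) : w ∈ K V A v := by
  have h1 := ht _ (relOf_isRel (A v) hv)
  rw [relOf_self _ (h.notMem hv)] at h1
  exact mem_K.2 ⟨hw, h1.le⟩

theorem of_lt (hV : Core V) (hF : FibreLike V) (h : Col V k A) {v w : Fin n → ℤ}
    (hv : v ∈ V) (hw : w ∈ K V A v)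
    (hm : ∀ y ∈ V, y ∉ (A v).F → k ≤ (A v).d y) :
    Tw V v w ∧ SameOrbit V v w := by
  by_cases hne : w = v
  · subst hne
    exact ⟨Tw.refl _, SameOrbit.refl V _⟩
  rcases neighbour hV hF h hv hw hne with hz | ⟨y, hy, hyF, hyv, hcy, hlt, _⟩
  · exact tw_first hV h hv hw hne hz
  · exfalso
    have := hm y hy hyF
    linarith

end Col

end FLT99
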