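import Pool.Agent.FLT99.Twin

namespace FLT99

open Finset

variable {n : ℕ} {V : Finset (Fin n → ℤ)}

theorem Facet.even (B : Facet V) (m : (Fin n → ℤ) →ₗ[ℤ] ℤ) (hm : ∀ f ∈ B.F, (2 : ℤ) ∣ m f)
    (x : Fin n → ℤ) : (2 : ℤ) ∣ m x := by
  rw [← B.expand x, map_sum]
  refine Finset.dvd_sum fun f hf => ?_
  rw [map_smul, smul_eq_mul]
  exact Dvd.dvd.mul_left (hm f hf) _

namespace Col

variable {k : ℤ} {A : (Fin n → ℤ) → Facet V}

theorem K_form (hV : Core V) (h : Col V k A) {v : Fin n → ℤ} (hv : v ∈ V)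
    (m : (Fin n → ℤ) →ₗ[ℤ] ℤ) : ∑ x ∈ K V A v, m x = 0 := by
  have := congrArg m (K_sum hV h hv)
  rwa [map_sum, map_zero] at this

theorem K_d (hV : Core V) (h : Col V k A) {v : Fin n → ℤ} (hv : v ∈ V) (B : Facet V) :
    ∑ x ∈ K V A v, B.d x = k := by
  unfold Facet.d
  rw [Finset.sum_sub_distrib, K_form hV h hv B.u, Finset.sum_const, nsmul_eq_mul, mul_one,
    K_card hV h hv, sub_zero]

theorem K_ne (hV : Core V) (h : Col V k A) {v z : Fin n → ℤ} (hv : v ∈ V)
    (hzF : z ∉ (A v).F) (hzv : z ≠ v) : z ∉ K V A v := by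
  intro hz
  exact hzF (K_in hV h hv hz hzv)

/-- No element of `K v` lies in `K z`. -/
theorem K_disj (hV : Core V) (h : Col V k A) {v z w : Fin n → ℤ} (hv : v ∈ V) (hz : z ∈ V)
    (hzK : z ∉ K V A v) (hw : w ∈ K V A v) : w ∉ K V A z := by
  intro hwz
  apply hzK
  rw [mem_comm hV h hz hv, ← K_eq hV h hv hw, ← K_eq hV h hz hwz]

theorem single (hV : Core V) (h : Col V k A) (B : Facet V) {z : Fin n → ℤ} (hz : z ∈ V)
    (hd : B.d z = k) {x : Fin n → ℤ} (hx : x ∈ K V A z) (hxz : x ≠ z) : x ∈ B.F := by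
  classical
  have h1 := K_d hV h hz B
  rw [← Finset.add_sum_erase _ _ (self_mem h hz), hd] at h1
  have h2 : ∑ x ∈ (K V A z).erase z, B.d x = 0 := by linarith
  rw [Finset.sum_eq_zero_iff_of_nonneg (fun x hx =>
    B.d_nonneg (K_sub z (Finset.mem_of_mem_erase hx)))] at h2
  by_contra hcon
  have h3 := B.d_pos (K_sub z hx) hcon
  rw [h2 x (Finset.mem_erase.2 ⟨hxz, hx⟩)] at h3
  exact lt_irrefl _ h3

theorem pair (hV : Core V) (h : Col V k A) {T : ℤ} (hT : Gen V T) (hk : k = 2 * T)
    (B : Facet V) {z : Fin n → ℤ} (hz : z ∈ V) (hd : B.d z = T) :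
    ∃ z' ∈ K V A z, z' ≠ z ∧ z' ∉ B.F ∧ B.d z' = T ∧
      ∀ x ∈ K V A z, x ≠ z → x ≠ z' → x ∈ B.F := by
  classical
  have h1 := K_d hV h hz B
  rw [← Finset.add_sum_erase _ _ (self_mem h hz), hd] at h1
  have h2 : ∑ x ∈ (K V A z).erase z, B.d x = T := by linarith
  have hTp := hT.pos
  have hnn : ∀ x ∈ (K V A z).erase z, 0 ≤ B.d x := fun x hx =>
    B.d_nonneg (K_sub z (Finset.mem_of_mem_erase hx))
  obtain ⟨z', hz', hz'F⟩ : ∃ z' ∈ (K V A z).erase z, z' ∉ B.F := by
    by_contra hcon
    push Not at hcon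
    rw [Finset.sum_eq_zero (fun x hx => B.d_mem (hcon x hx))] at h2
    linarith
  have hz'K := Finset.mem_erase.1 hz'
  have h3 := hT.le_d B (K_sub z hz'K.2) hz'F
  rw [← Finset.add_sum_erase _ _ hz'] at h2
  have h4 : 0 ≤ ∑ x ∈ ((K V A z).erase z).erase z', B.d x :=
    Finset.sum_nonneg fun x hx => hnn x (Finset.mem_of_mem_erase hx)
  refine ⟨z', hz'K.2, hz'K.1, hz'F, by linarith, ?_⟩
  intro x hx hxz hxz'
  by_contra hcon
  have h5 := B.d_pos (K_sub z hx) hcon
  have h6 : B.d x ≤ ∑ x ∈ ((K V A z).erase z).erase z', B.d x :=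
    Finset.single_le_sum (fun x hx => hnn x (Finset.mem_of_mem_erase hx))
      (Finset.mem_erase.2 ⟨hxz', Finset.mem_erase.2 ⟨hxz, hx⟩⟩)
  linarith

/-- The form of a vertex which is no twin, for `k = 2 T`. -/
theorem formTwo (hV : Core V) (hF : FibreLike V) (h : Col V k A) {T : ℤ} (hT : Gen V T)
    (hk : k = 2 * T) {v w : Fin n → ℤ} (hv : v ∈ V) (hw : w ∈ K V A v)
    (hso : ¬ SameOrbit V v w) :
    ∃ y y', y ∈ V ∧ y' ∈ V ∧ y ∉ (A v).F ∧ y' ∉ (A v).F ∧ y ≠ v ∧ y' ≠ v ∧ y' ≠ y ∧
      (A v).d y = T ∧ (A v).d y' = T ∧ (A v).co w y = -1 ∧ (A v).co w y' = 1 ∧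
      y' ∈ K V A y ∧ (∀ x ∈ K V A y, x ∉ (A v).F → x = y ∨ x = y') ∧
      (∀ x ∈ V, x ∉ (A v).F → x ≠ v → x ≠ y → x ≠ y' → (A v).co w x = 0) := by
  classical
  have hne : w ≠ v := by
    rintro rfl
    exact hso (SameOrbit.refl V _)
  have hTp := hT.pos
  have hwF := K_in hV h hv hw hne
  have hvF := h.notMem hv
  rcases neighbour hV hF h hv hw hne with hz | ⟨y, hy, hyF, hyv, hcy, hlt, hall⟩
  · exact absurd (tw_first hV h hv hw hne hz).2 hso
  have hdy : (A v).d y = T := by
    obtain ⟨c, hc⟩ := hT.dvd_d (A v) hy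
    have h1 := (A v).d_pos hy hyF
    rw [hc] at h1 hlt ⊢
    have h2 : 0 < c := by
      by_contra hcon
      push Not at hcon
      nlinarith
    have h3 : c < 2 := by
      by_contra hcon
      push Not at hcon
      nlinarith
    have : c = 1 := by omega
    rw [this, mul_one]
  rw [hdy] at hall
  -- the sum of the coordinate over a collection other than the one of `v`
  have hsum : ∀ z ∈ V, z ∉ (A v).F → z ≠ v → ∀ x ∈ K V A z, x ∈ (A v).F →
      (A v).co w x = 0 := by
    intro z hz hzF hzv x hx hxF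
    have h1 : w ∉ K V A z := K_disj hV h hv hz (K_ne hV h hv hzF hzv) hw
    refine (A v).co_ne w hwF x hxF ?_
    rintro rfl
    exact h1 hx
  have hpair : ∀ z ∈ V, z ∉ (A v).F → z ≠ v → (A v).d z = T →
      ∀ z' ∈ K V A z, z' ≠ z → (∀ x ∈ K V A z, x ≠ z → x ≠ z' → x ∈ (A v).F) →
      (A v).co w z + (A v).co w z' = 0 := by
    intro z hz hzF hzv hdz z' hz' hne' hr
    have h1 := K_form hV h hz ((A v).co w)
    rw [← Finset.add_sum_erase _ _ (self_mem h hz), ← Finset.add_sum_erase _ _
      (Finset.mem_erase.2 ⟨hne', hz'⟩), Finset.sum_eq_zero] at h1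
    · linarith
    · intro x hx
      rw [Finset.mem_erase, Finset.mem_erase] at hx
      exact hsum z hz hzF hzv x hx.2.2 (hr x hx.2.2 hx.2.1 hx.1)
  obtain ⟨y', hy', hy'y, hy'F, hdy', hyr⟩ := pair hV h hT hk (A v) hy hdy
  have hcy' := hpair y hy hyF hyv hdy y' hy' hy'y hyr
  have hy'v : y' ≠ v := by
    rintro rfl
    have h1 := h.eq y' hv
    rw [hdy'] at h1
    linarith
  refine ⟨y, y', hy, K_sub y hy', hyF, hy'F, hyv, hy'v, hy'y, hdy, hdy', hcy, by linarith, hy',
    ?_, ?_⟩
  · intro x hx hxF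
    by_contra hcon
    push Not at hcon
    exact hxF (hyr x hx hcon.1 hcon.2)
  · intro x hx hxF hxv hxy hxy'
    have hdx : (A v).d x = T ∨ (A v).d x = k := by
      obtain ⟨c, hc⟩ := hT.dvd_d (A v) hx
      have h1 := (A v).d_pos hx hxF
      have h2 := h.le (A v) x hx
      rw [hk] at h2 ⊢
      rw [hc] at h1 h2 ⊢
      have h3 : 0 < c := by
        by_contra hcon
        push Not at hcon
        nlinarith
      have h4 : c ≤ 2 := by
        by_contra hcon
        push Not at hcon
        have : 3 ≤ c := by omega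
        nlinarith
      have : c = 1 ∨ c = 2 := by omega
      rcases this with rfl | rfl
      · left
        ring
      · right
        ring
    rcases hdx with hdx | hdx
    · obtain ⟨x', hx', hx'x, hx'F, hdx', hxr⟩ := pair hV h hT hk (A v) hx hdx
      have h1 := hpair x hx hxF hxv hdx x' hx' hx'x hxr
      have h2 := hall x hx hxF hxy
      rw [hdx] at h2
      have h3 : 0 ≤ (A v).co w x := by
        by_contra hcon
        push Not at hcon
        have : 1 ≤ -((A v).co w x) := by linarith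
        nlinarith
      have hx'y : x' ≠ y := by
        rintro rfl
        have e1 := K_eq hV h hx hx'
        have e2 : x ∈ K V A x' := by
          rw [e1]
          exact self_mem h hx
        exact hxF (hyr x e2 hxy hxy')
      have h4 := hall x' (K_sub x hx') hx'F hx'y
      rw [hdx'] at h4
      have h5 : 0 ≤ (A v).co w x' := by
        by_contra hcon
        push Not at hcon
        have : 1 ≤ -((A v).co w x') := by linarith
        nlinarith
      linarith
    · have h1 := K_form hV h hx ((A v).co w)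
      rw [← Finset.add_sum_erase _ _ (self_mem h hx), Finset.sum_eq_zero] at h1
      · linarith
      · intro z hz
        rw [Finset.mem_erase] at hz
        exact hsum x hx hxF hxv z hz.2 (single hV h (A v) hx hdx hz.2 hz.1)

/-- For `k = 2 T` the vertices which are not in the orbit of `v` are mutual twins. -/
theorem twTwo (hV : Core V) (hF : FibreLike V) (h : Col V k A) {T : ℤ} (hT : Gen V T)
    (hk : k = 2 * T) {v w₁ w₂ : Fin n → ℤ} (hv : v ∈ V) (hw₁ : w₁ ∈ K V A v)
    (hw₂ : w₂ ∈ K V A v) (hso₁ : ¬ SameOrbit V v w₁) (hso₂ : ¬ SameOrbit V v w₂) :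
    Tw V w₁ w₂ := by
  classical
  by_cases hww : w₂ = w₁
  · rw [hww]
    exact Tw.refl _
  have hTp := hT.pos
  have hTR : (0 : ℝ) < (T : ℝ) := by exact_mod_cast hTp
  have hvF := h.notMem hv
  have hne₁ : w₁ ≠ v := by
    rintro rfl
    exact hso₁ (SameOrbit.refl V _)
  have hne₂ : w₂ ≠ v := by
    rintro rfl
    exact hso₂ (SameOrbit.refl V _)
  have hF₁ := K_in hV h hv hw₁ hne₁
  have hF₂ := K_in hV h hv hw₂ hne₂
  have hc₁v := co_v hV h hv hw₁ hne₁
  have hc₂v := co_v hV h hv hw₂ hne₂
  have hc₁₁ := (A v).co_self w₁ hF₁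
  have hc₂₂ := (A v).co_self w₂ hF₂
  have hc₁₂ := (A v).co_ne w₁ hF₁ w₂ hF₂ (Ne.symm hww)
  have hc₂₁ := (A v).co_ne w₂ hF₂ w₁ hF₁ hww
  have huv : (A v).u v = 1 - 2 * T := by
    have := h.eq v hv
    rw [Facet.d, hk] at this
    linarith
  have hout : ∀ x ∈ V, x ∉ (A v).F → (A v).u x < 1 := by
    intro x hx hxF
    have := (A v).d_pos hx hxF
    rw [Facet.d] at this
    linarith
  obtain ⟨y₁, y₁', hy₁, hy₁', hy₁F, hy₁F', hy₁v, hy₁v', hyy₁, hd₁, hd₁', hc₁, hc₁', hyK₁, hK₁,
    hz₁⟩ := formTwo hV hF h hT hk hv hw₁ hso₁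
  obtain ⟨y₂, y₂', hy₂, hy₂', hy₂F, hy₂F', hy₂v, hy₂v', hyy₂, hd₂, hd₂', hc₂, hc₂', hyK₂, hK₂,
    hz₂⟩ := formTwo hV hF h hT hk hv hw₂ hso₂
  have hu₁ : (A v).u y₁ = 1 - T := by
    rw [Facet.d] at hd₁
    linarith
  have hu₁' : (A v).u y₁' = 1 - T := by
    rw [Facet.d] at hd₁'
    linarith
  have hu₂ : (A v).u y₂ = 1 - T := by
    rw [Facet.d] at hd₂
    linarith
  have hu₂' : (A v).u y₂' = 1 - T := by
    rw [Facet.d] at hd₂'
    linarith
  -- the coordinates on the facet
  have hin₁ : ∀ x ∈ (A v).F, x ≠ w₁ → (A v).co w₁ x = 0 := fun x hx hxw =>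
    (A v).co_ne w₁ hF₁ x hx (Ne.symm hxw)
  have hin₂ : ∀ x ∈ (A v).F, x ≠ w₂ → (A v).co w₂ x = 0 := fun x hx hxw =>
    (A v).co_ne w₂ hF₂ x hx (Ne.symm hxw)
  by_cases hKK : y₂ ∈ K V A y₁
  · rcases hK₁ y₂ hKK hy₂F with he | he
    · -- the same ordered pair
      subst he
      have he' : y₂' = y₁' := by
        rcases hK₁ y₂' hyK₂ hy₂F' with h1 | h1
        · exact absurd h1 hyy₂
        · exact h1
      subst he'
      apply Tw.symm
      refine tw_of_form (K_sub v hw₂) (K_sub v hw₁) (Ne.symm hww) ((A v).co w₁ - (A v).co w₂)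
        ?_ ?_ ?_
      · rw [LinearMap.sub_apply, hc₁₁, hc₂₁]
        norm_num
      · rw [LinearMap.sub_apply, hc₂₂, hc₁₂]
        norm_num
      · intro x hx hx2 hx1
        rw [LinearMap.sub_apply]
        by_cases hxF : x ∈ (A v).F
        · rw [hin₁ x hxF hx1, hin₂ x hxF hx2]
          norm_num
        · by_cases hxv : x = v
          · subst hxv
            rw [hc₁v, hc₂v]
            norm_num
          · by_cases hxy : x = y₂
            · subst hxy
              rw [hc₁, hc₂]
              norm_num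
            · by_cases hxy' : x = y₂'
              · subst hxy'
                rw [hc₁', hc₂']
                norm_num
              · rw [hz₁ x hx hxF hxv hxy hxy', hz₂ x hx hxF hxv hxy hxy']
                norm_num
    · -- the opposite order
      exfalso
      subst he
      have he' : y₂' = y₁ := by
        have h1 : y₂' ∈ K V A y₁ := by
          rw [← K_eq hV h hy₁ hKK]
          exact hyK₂
        rcases hK₁ y₂' h1 hy₂F' with h2 | h2
        · exact h2
        · exact absurd h2 hyy₂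
      subst he'
      let φ : (Fin n → ℤ) →ₗ[ℤ] ℝ := toReal (A v).u - (3 * T / 2 : ℝ) • toReal ((A v).co w₁)
        - (T / 2 : ℝ) • toReal ((A v).co w₂)
      have hφ : ∀ x, φ x = ((A v).u x : ℝ) - (3 * T / 2 : ℝ) * ((A v).co w₁ x : ℝ)
          - (T / 2 : ℝ) * ((A v).co w₂ x : ℝ) := by
        intro x
        simp [φ, toReal_apply]
      have hφv : φ v = 1 := by
        rw [hφ, huv, hc₁v, hc₂v]
        push_cast
        ring
      have hφy : φ y₂' = 1 := by
        rw [hφ, hu₁, hc₁, hc₂']
        push_cast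
        ring
      have hφy' : φ y₂ < 1 := by
        rw [hφ, hu₁', hc₁', hc₂]
        push_cast
        linarith
      have hφw₁ : φ w₁ < 1 := by
        rw [hφ, (A v).u_mem hF₁, hc₁₁, hc₂₁]
        push_cast
        linarith
      have hφw₂ : φ w₂ < 1 := by
        rw [hφ, (A v).u_mem hF₂, hc₂₂, hc₁₂]
        push_cast
        linarith
      have hφF : ∀ x ∈ (A v).F, x ≠ w₁ → x ≠ w₂ → φ x = 1 := by
        intro x hx h1 h2
        rw [hφ, (A v).u_mem hx, hin₁ x hx h1, hin₂ x hx h2]
        push_cast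
        ring
      have hφo : ∀ x ∈ V, x ∉ (A v).F → x ≠ v → x ≠ y₂' → x ≠ y₂ → φ x < 1 := by
        intro x hx hxF h1 h2 h3
        rw [hφ, hz₁ x hx hxF h1 h2 h3, hz₂ x hx hxF h1 h3 h2]
        have : ((A v).u x : ℝ) < 1 := by exact_mod_cast hout x hx hxF
        push_cast
        linarith
      have hle : ∀ x ∈ V, φ x ≤ 1 := by
        intro x hx
        by_cases hxF : x ∈ (A v).F
        · by_cases h1 : x = w₁
          · subst h1
            exact hφw₁.le
          · by_cases h2 : x = w₂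
            · subst h2
              exact hφw₂.le
            · exact (hφF x hxF h1 h2).le
        · by_cases h1 : x = v
          · subst h1
            exact hφv.le
          · by_cases h2 : x = y₂'
            · subst h2
              exact hφy.le
            · by_cases h3 : x = y₂
              · subst h3
                exact hφy'.le
              · exact (hφo x hx hxF h1 h2 h3).le
      obtain ⟨B, hB⟩ := hV.basis φ hle (by
        intro ψ hψ
        have e1 := hψ v hv hφv
        have e2 := hψ y₂' hy₁ hφy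
        have hex : ∀ x, ψ x = (A v).co w₁ x • ψ w₁ + (A v).co w₂ x • ψ w₂ := by
          intro x
          conv_lhs => rw [← (A v).expand x]
          rw [map_sum, ← Finset.add_sum_erase _ _ hF₁, ← Finset.add_sum_erase _ _
            (Finset.mem_erase.2 ⟨hww, hF₂⟩), Finset.sum_eq_zero]
          · rw [map_smul, map_smul, add_zero]
          · intro z hz
            rw [Finset.mem_erase, Finset.mem_erase] at hz
            rw [map_smul, hψ z ((A v).sub hz.2.2) (hφF z hz.2.2 hz.2.1 hz.1), smul_zero]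
        rw [hex, hc₁v, hc₂v] at e1
        rw [hex, hc₁, hc₂'] at e2
        simp only [neg_smul, one_smul] at e1 e2
        have z1 : ψ w₁ = 0 := by linarith
        have z2 : ψ w₂ = 0 := by linarith
        ext x
        simp only [LinearMap.comp_apply]
        rw [hex, z1, z2]
        simp)
      have hBF : ∀ x ∈ B.F, (2 : ℤ) ∣ ((A v).co w₁ + (A v).co w₂) x := by
        intro x hx
        have h1 := (hB x).1 hx
        rw [LinearMap.add_apply]
        by_cases hxF : x ∈ (A v).F
        · by_cases e1 : x = w₁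
          · subst e1
            exact absurd h1.2 hφw₁.ne
          · by_cases e2 : x = w₂
            · subst e2
              exact absurd h1.2 hφw₂.ne
            · rw [hin₁ x hxF e1, hin₂ x hxF e2]
              norm_num
        · by_cases e1 : x = v
          · subst e1
            rw [hc₁v, hc₂v]
            norm_num
          · by_cases e2 : x = y₂'
            · subst e2
              rw [hc₁, hc₂']
              norm_num
            · by_cases e3 : x = y₂
              · subst e3
                exact absurd h1.2 hφy'.ne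
              · exact absurd h1.2 (hφo x h1.1 hxF e1 e2 e3).ne
      have hev : (2 : ℤ) ∣ ((A v).co w₁ + (A v).co w₂) w₁ := B.even _ hBF w₁
      rw [LinearMap.add_apply, hc₁₁, hc₂₁] at hev
      norm_num at hev
  · -- different collections
    exfalso
    have hd12 : ∀ x ∈ K V A y₁, x ∉ K V A y₂ := by
      intro x hx hx2
      apply hKK
      rw [mem_comm hV h hy₂ hy₁, ← K_eq hV h hy₁ hx, ← K_eq hV h hy₂ hx2]
    have hy12 : y₁ ≠ y₂ := by
      rintro rfl
      exact hKK (self_mem h hy₁)
    have hy12' : y₁ ≠ y₂' := by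
      rintro rfl
      exact hd12 _ (self_mem h hy₁) hyK₂
    have hy21' : y₂ ≠ y₁' := by
      rintro rfl
      exact hKK hyK₁
    have hy1'2' : y₁' ≠ y₂' := by
      rintro rfl
      exact hd12 _ hyK₁ hyK₂
    have hc21 := hz₂ y₁ hy₁ hy₁F hy₁v hy12 hy12'
    have hc21' := hz₂ y₁' hy₁' hy₁F' hy₁v' (Ne.symm hy21') hy1'2'
    have hc12 := hz₁ y₂ hy₂ hy₂F hy₂v (Ne.symm hy12) hy21'
    have hc12' := hz₁ y₂' hy₂' hy₂F' hy₂v' (Ne.symm hy12') (Ne.symm hy1'2')
    let φ : (Fin n → ℤ) →ₗ[ℤ] ℝ := toReal (A v).u - (T : ℝ) • toReal ((A v).co w₁)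
      - (T : ℝ) • toReal ((A v).co w₂)
    have hφ : ∀ x, φ x = ((A v).u x : ℝ) - (T : ℝ) * ((A v).co w₁ x : ℝ)
        - (T : ℝ) * ((A v).co w₂ x : ℝ) := by
      intro x
      simp [φ, toReal_apply]
    have hφv : φ v = 1 := by
      rw [hφ, huv, hc₁v, hc₂v]
      push_cast
      ring
    have hφy₁ : φ y₁ = 1 := by
      rw [hφ, hu₁, hc₁, hc21]
      push_cast
      ring
    have hφy₂ : φ y₂ = 1 := by
      rw [hφ, hu₂, hc₂, hc12]
      push_cast
      ring
    have hφy₁' : φ y₁' < 1 := by
      rw [hφ, hu₁', hc₁', hc21']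
      push_cast
      linarith
    have hφy₂' : φ y₂' < 1 := by
      rw [hφ, hu₂', hc₂', hc12']
      push_cast
      linarith
    have hφw₁ : φ w₁ < 1 := by
      rw [hφ, (A v).u_mem hF₁, hc₁₁, hc₂₁]
      push_cast
      linarith
    have hφw₂ : φ w₂ < 1 := by
      rw [hφ, (A v).u_mem hF₂, hc₂₂, hc₁₂]
      push_cast
      linarith
    have hφF : ∀ x ∈ (A v).F, x ≠ w₁ → x ≠ w₂ → φ x = 1 := by
      intro x hx h1 h2
      rw [hφ, (A v).u_mem hx, hin₁ x hx h1, hin₂ x hx h2]
      push_cast
      ring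
    have hφo : ∀ x ∈ V, x ∉ (A v).F → x ≠ v → x ≠ y₁ → x ≠ y₁' → x ≠ y₂ → x ≠ y₂' →
        φ x < 1 := by
      intro x hx hxF h1 h2 h3 h4 h5
      rw [hφ, hz₁ x hx hxF h1 h2 h3, hz₂ x hx hxF h1 h4 h5]
      have : ((A v).u x : ℝ) < 1 := by exact_mod_cast hout x hx hxF
      push_cast
      linarith
    have hle : ∀ x ∈ V, φ x ≤ 1 := by
      intro x hx
      by_cases hxF : x ∈ (A v).F
      · by_cases h1 : x = w₁
        · subst h1
          exact hφw₁.le
        · by_cases h2 : x = w₂
          · subst h2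
            exact hφw₂.le
          · exact (hφF x hxF h1 h2).le
      · by_cases h1 : x = v
        · subst h1
          exact hφv.le
        · by_cases h2 : x = y₁
          · subst h2
            exact hφy₁.le
          · by_cases h3 : x = y₁'
            · subst h3
              exact hφy₁'.le
            · by_cases h4 : x = y₂
              · subst h4
                exact hφy₂.le
              · by_cases h5 : x = y₂'
                · subst h5
                  exact hφy₂'.le
                · exact (hφo x hx hxF h1 h2 h3 h4 h5).le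
    obtain ⟨B, hB⟩ := hV.basis φ hle (by
      intro ψ hψ
      have e1 := hψ y₁ hy₁ hφy₁
      have e2 := hψ y₂ hy₂ hφy₂
      have hex : ∀ x, ψ x = (A v).co w₁ x • ψ w₁ + (A v).co w₂ x • ψ w₂ := by
        intro x
        conv_lhs => rw [← (A v).expand x]
        rw [map_sum, ← Finset.add_sum_erase _ _ hF₁, ← Finset.add_sum_erase _ _
          (Finset.mem_erase.2 ⟨hww, hF₂⟩), Finset.sum_eq_zero]
        · rw [map_smul, map_smul, add_zero]
        · intro z hz
          rw [Finset.mem_erase, Finset.mem_erase] at hz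
          rw [map_smul, hψ z ((A v).sub hz.2.2) (hφF z hz.2.2 hz.2.1 hz.1), smul_zero]
      rw [hex, hc₁, hc21] at e1
      rw [hex, hc12, hc₂] at e2
      simp only [neg_smul, one_smul, zero_smul] at e1 e2
      have z1 : ψ w₁ = 0 := by linarith
      have z2 : ψ w₂ = 0 := by linarith
      ext x
      simp only [LinearMap.comp_apply]
      rw [hex, z1, z2]
      simp)
    have hsub : insert v (insert y₁ (insert y₂ (((A v).F.erase w₁).erase w₂))) ⊆ B.F := by
      intro x hx
      simp only [Finset.mem_insert, Finset.mem_erase] at hx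
      rcases hx with rfl | rfl | rfl | ⟨h1, h2, h3⟩
      · exact (hB _).2 ⟨hv, hφv⟩
      · exact (hB _).2 ⟨hy₁, hφy₁⟩
      · exact (hB _).2 ⟨hy₂, hφy₂⟩
      · exact (hB _).2 ⟨(A v).sub h3, hφF x h3 h2 h1⟩
    have hcard := Finset.card_le_card hsub
    rw [Finset.card_insert_of_notMem, Finset.card_insert_of_notMem,
      Finset.card_insert_of_notMem, Finset.card_erase_of_mem, Finset.card_erase_of_mem hF₁,
      B.card, (A v).card] at hcard
    · have h2 : 2 ≤ (A v).F.card := by
        have h3 : ({w₁, w₂} : Finset (Fin n → ℤ)) ⊆ (A v).F := by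
          intro x hx
          simp only [Finset.mem_insert, Finset.mem_singleton] at hx
          rcases hx with rfl | rfl
          · exact hF₁
          · exact hF₂
        have h4 := Finset.card_le_card h3
        rwa [Finset.card_pair (Ne.symm hww)] at h4
      rw [(A v).card] at h2
      omega
    · exact Finset.mem_erase.2 ⟨hww, hF₂⟩
    · intro hx
      exact hy₂F (Finset.mem_of_mem_erase (Finset.mem_of_mem_erase hx))
    · rw [Finset.mem_insert]
      rintro (hx | hx)
      · exact hy12 hx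
      · exact hy₁F (Finset.mem_of_mem_erase (Finset.mem_of_mem_erase hx))
    · rw [Finset.mem_insert, Finset.mem_insert]
      rintro (hx | hx | hx)
      · exact hy₁v hx.symm
      · exact hy₂v hx.symm
      · exact hvF (Finset.mem_of_mem_erase (Finset.mem_of_mem_erase hx))

end Col

end FLT99
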